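import Mathlib
import Pool.Agent.Helper760.Profile

set_option autoImplicit false

namespace Pool.Agent.H56Z.EP

open Encodable
open Pool.Agent.Helper760.Kolm

section
variable {α β γ δ : Type*} [Primcodable α] [Primcodable β] [Primcodable γ] [Primcodable δ]

/-- the first object with a decidable property is simple -/
theorem K_search (P : γ × β × α → Prop) (hP : PrimrecPred P) :
    ∃ c : ℕ, ∀ (g : γ) (b : β), (∃ a, P (g, b, a)) →
      ∃ a, P (g, b, a) ∧ K a b ≤ 2 * Nat.size (encode g) + c := by
  classical
  let f : γ × List Bool × β → ℕ → Option α := fun x k =>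
    (decode (α := α) k).bind (fun a => bif decide (P (x.1, x.2.2, a)) then some a else none)
  have hf : Computable₂ f := by
    have hD : Primrec (fun z : γ × β × α => decide (P z)) := hP.decide
    have hq : Computable (fun z : ((γ × List Bool × β) × ℕ) × α => (z.1.1.1, z.1.1.2.2, z.2)) :=
      Computable.pair (Computable.fst.comp (Computable.fst.comp Computable.fst))
        (Computable.pair (Computable.snd.comp (Computable.snd.comp
          (Computable.fst.comp Computable.fst))) Computable.snd)
    have hc := hD.to_comp.comp hq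
    have hsome : Computable (fun z : ((γ × List Bool × β) × ℕ) × α => some z.2) :=
      Computable.option_some.comp Computable.snd
    have hnone : Computable (fun _ : ((γ × List Bool × β) × ℕ) × α => (none : Option α)) :=
      Computable.const none
    have hcond := Computable.cond hc hsome hnone
    have hdec : Computable (fun z : (γ × List Bool × β) × ℕ => decode (α := α) z.2) :=
      Computable.decode.comp Computable.snd
    exact (Computable.option_bind hdec hcond.to₂).to₂
  have hφ : Partrec (fun x : γ × List Bool × β => Nat.rfindOpt (f x)) := Partrec.rfindOpt hf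
  obtain ⟨c, hc⟩ := K_param _ hφ
  refine ⟨c, fun g b ⟨a0, ha0⟩ => ?_⟩
  have hd : (Nat.rfindOpt (f (g, [], b))).Dom := by
    rw [Nat.rfindOpt_dom]
    refine ⟨encode a0, a0, ?_⟩
    simp [f, encodek, ha0]
  obtain ⟨a, ha⟩ := Part.dom_iff_mem.1 hd
  refine ⟨a, ?_, ?_⟩
  · obtain ⟨k, hk⟩ := Nat.rfindOpt_spec ha
    simp only [f, Option.mem_def, Option.bind_eq_some_iff] at hk
    obtain ⟨a', _, hk2⟩ := hk
    by_cases hg : P (g, b, a')
    · simp only [hg, decide_true, cond_true, Option.some.injEq] at hk2
      rw [← hk2]; exact hg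
    · simp [hg] at hk2
  · have := hc g [] b a ha
    simpa using this

/-- an element of a list computed from the condition -/
theorem K_mem (F : β → List α) (hF : Computable F) :
    ∃ c : ℕ, ∀ (b : β) (a : α) (m : ℕ), a ∈ F b → (F b).length ≤ 2 ^ m → K a b ≤ m + c := by
  let φ : Unit × List Bool × β →. α := fun x => Part.ofOption ((F x.2.2)[val x.2.1]?)
  have hφ : Partrec φ := by
    refine Computable.ofOption ?_
    exact Computable.list_getElem?.comp (hF.comp (Computable.snd.comp Computable.snd))
      (primrec_val.to_comp.comp (Computable.fst.comp Computable.snd))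
  obtain ⟨c, hc⟩ := K_param φ hφ
  refine ⟨c, fun b a m ha hm => ?_⟩
  obtain ⟨i, hi, rfl⟩ := List.getElem_of_mem ha
  obtain ⟨p, hp, hv⟩ := exists_val i m (by omega)
  have := hc () p b ((F b)[i]) (by
    simp only [φ, hv, List.getElem?_eq_getElem hi]
    simp)
  simp only [size_encode_unit] at this
  omega

/-- computable image, no condition -/
theorem K_map (F : δ → α) (hF : Computable F) : ∃ c : ℕ, ∀ d, K (F d) () ≤ K d () + c := by
  obtain ⟨c, hc⟩ := K_comp (α := α) (β := Unit) (γ := Unit) (fun d _ => F d)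
    (hF.comp Computable.fst).to₂ id Computable.id
  exact ⟨c, fun d => hc d ()⟩

/-- building an object from a piece of it and the condition -/
theorem K_build (F : δ → β → α) (hF : Computable₂ F) (G : β → γ) (hG : Computable G) :
    ∃ c : ℕ, ∀ d b, K (F d b) () ≤ K b () + K d (G b) + 2 * Nat.size (K b ()) + c := by
  obtain ⟨c1, h1⟩ := K_comp F hF G hG
  obtain ⟨c2, h2⟩ := K_chain0 (α := β) (β := α)
  refine ⟨c1 + c2, fun d b => ?_⟩
  have := h1 d b
  have := h2 b (F d b)
  omega

/-- the converse: symmetry of information -/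
theorem K_split [DecidableEq α] [DecidableEq β] (f : β → α) (hf : Primrec f)
    (F : β → δ) (hF : Computable F) (G : γ → α) (hG : Computable G) :
    ∃ c : ℕ, ∀ (b : β) (y : γ), G y = f b →
      K (f b) () + K (F b) y ≤ K b () + 6 * Nat.size (K b ()) + c := by
  obtain ⟨c1, h1⟩ := K_hard0 f hf
  obtain ⟨c2, h2⟩ := K_comp (α := δ) (β := γ) (γ := α) (δ := β) (fun b _ => F b)
    (hF.comp Computable.fst).to₂ G hG
  refine ⟨c1 + c2, fun b y hy => ?_⟩
  have := h1 b
  have h3 := h2 b y
  rw [hy] at h3
  omega

theorem K_len' : ∃ c : ℕ, ∀ (r : List Bool) (b : β), K r b ≤ r.length + c := by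
  have hφ : Partrec (fun x : Unit × List Bool × β => (Part.some x.2.1 : Part (List Bool))) :=
    (Computable.fst.comp Computable.snd).partrec
  obtain ⟨c, hc⟩ := K_param _ hφ
  refine ⟨c, fun r b => ?_⟩
  have := hc () r b r (by simp)
  simpa using this

theorem exists_rand (b : β) (l : ℕ) : ∃ r : List Bool, r.length = l ∧ l ≤ K r b := by
  by_contra hcon
  push Not at hcon
  have h1 := card_lt b l (allLen l).toFinset (by
    intro a ha
    rw [List.mem_toFinset, mem_allLen] at ha
    exact hcon a ha)
  rw [List.toFinset_card_of_nodup (nodup_allLen l), length_allLen] at h1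
  omega

/-- an object written as a string -/
def str (a : α) : List Bool := List.replicate (encode a) true

theorem primrec_str : Primrec (str : α → List Bool) := by
  have h : Primrec (fun a : α => (List.range (encode a)).map (fun _ => true)) :=
    Primrec.list_map (Primrec.list_range.comp Primrec.encode) (Primrec.const true).to₂
  refine h.of_eq ?_
  intro a
  simp [str]

/-- reading an object back -/
def unstr [Inhabited α] (s : List Bool) : α := (decode (α := α) s.length).getD default

theorem primrec_unstr [Inhabited α] : Primrec (unstr : List Bool → α) :=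
  Primrec.option_getD.comp (Primrec.decode.comp Primrec.list_length) (Primrec.const default)

theorem unstr_str [Inhabited α] (a : α) : unstr (str a) = a := by
  simp [unstr, str]

theorem str_inj : Function.Injective (str : α → List Bool) := by
  intro a b h
  have := congrArg List.length h
  simp only [str, List.length_replicate] at this
  exact encode_injective this

end

/-- a block of a covering: adjacency lists from the left and from the right -/
abbrev Adj := List (List Bool × List (List Bool))

/-- the neighbours of a vertex in a block -/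
def look (A : Adj) (u : List Bool) : List (List Bool) :=
  (@List.lookup _ _ instBEqOfDecidableEq u A).getD []

/-- the block covers the edge -/
def Cov (T : Adj × Adj) (z : List Bool × List Bool) : Prop :=
  z.2 ∈ look T.1 z.1 ∧ z.1 ∈ look T.2 z.2

/-- size bounds -/
def Sz (A : Adj) (a t : ℕ) : Prop := A.length ≤ 2 ^ a ∧ ∀ r ∈ A, r.2.length ≤ 2 ^ t

/-- a good covering -/
def Good (G : List (List Bool × List Bool)) (v : ℕ × ℕ × ℕ × ℕ × ℕ) (w : List (Adj × Adj)) :
    Prop :=
  w.length ≤ 2 ^ v.1 ∧ (∀ T ∈ w, Sz T.1 v.2.1 v.2.2.1 ∧ Sz T.2 v.2.2.2.1 v.2.2.2.2) ∧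
    ∀ z ∈ G, ∃ T ∈ w, Cov T z

theorem primrec_two_pow : Primrec (fun n : ℕ => 2 ^ n) :=
  primrec_pow.comp (Primrec.const 2) Primrec.id

theorem primrec_Sz : PrimrecPred (fun x : Adj × ℕ × ℕ => Sz x.1 x.2.1 x.2.2) := by
  unfold Sz
  refine PrimrecPred.and ?_ ?_
  · exact PrimrecRel.comp (f := fun x : Adj × ℕ × ℕ => x.1.length) (g := fun x => 2 ^ x.2.1)
      Primrec.nat_le (Primrec.list_length.comp Primrec.fst)
      (primrec_two_pow.comp (Primrec.fst.comp Primrec.snd))
  · have h1 : PrimrecRel (fun (r : List Bool × List (List Bool)) (t : ℕ) => r.2.length ≤ 2 ^ t) :=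
      PrimrecRel.comp (f := fun x : (List Bool × List (List Bool)) × ℕ => x.1.2.length)
        (g := fun x => 2 ^ x.2) Primrec.nat_le
        (Primrec.list_length.comp (Primrec.snd.comp Primrec.fst))
        (primrec_two_pow.comp Primrec.snd)
    exact PrimrecRel.comp (f := fun x : Adj × ℕ × ℕ => x.1) (g := fun x => x.2.2)
      h1.forall_mem_list Primrec.fst (Primrec.snd.comp Primrec.snd)

theorem primrec_look : Primrec₂ look :=
  (Primrec.option_getD.comp (Primrec.listLookup.comp Primrec.snd Primrec.fst)
    (Primrec.const [])).to₂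

theorem primrec_Cov : PrimrecRel Cov := by
  unfold Cov
  refine PrimrecPred.and ?_ ?_
  · exact PrimrecRel.comp (f := fun x : (Adj × Adj) × (List Bool × List Bool) => x.2.2)
      (g := fun x => look x.1.1 x.2.1) primrec_mem (Primrec.snd.comp Primrec.snd)
      (primrec_look.comp (Primrec.fst.comp Primrec.fst) (Primrec.fst.comp Primrec.snd))
  · exact PrimrecRel.comp (f := fun x : (Adj × Adj) × (List Bool × List Bool) => x.2.1)
      (g := fun x => look x.1.2 x.2.2) primrec_mem (Primrec.fst.comp Primrec.snd)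
      (primrec_look.comp (Primrec.snd.comp Primrec.fst) (Primrec.snd.comp Primrec.snd))

theorem primrec_Good : PrimrecPred (fun x : (ℕ × ℕ × ℕ × ℕ × ℕ) × List (List Bool × List Bool) ×
    List (Adj × Adj) => Good x.2.1 x.1 x.2.2) := by
  unfold Good
  refine PrimrecPred.and ?_ (PrimrecPred.and ?_ ?_)
  · exact PrimrecRel.comp (f := fun x : (ℕ × ℕ × ℕ × ℕ × ℕ) × List (List Bool × List Bool) ×
      List (Adj × Adj) => x.2.2.length) (g := fun x => 2 ^ x.1.1) Primrec.nat_le
      (Primrec.list_length.comp (Primrec.snd.comp Primrec.snd))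
      (primrec_two_pow.comp (Primrec.fst.comp Primrec.fst))
  · have h1 : PrimrecPred (fun x : (Adj × Adj) × (ℕ × ℕ × ℕ × ℕ × ℕ) =>
        Sz x.1.1 x.2.2.1 x.2.2.2.1) :=
      primrec_Sz.comp (f := fun x : (Adj × Adj) × (ℕ × ℕ × ℕ × ℕ × ℕ) =>
        (x.1.1, x.2.2.1, x.2.2.2.1)) (Primrec.pair (Primrec.fst.comp Primrec.fst)
        (Primrec.pair (Primrec.fst.comp (Primrec.snd.comp Primrec.snd))
          (Primrec.fst.comp (Primrec.snd.comp (Primrec.snd.comp Primrec.snd)))))
    have h2 : PrimrecPred (fun x : (Adj × Adj) × (ℕ × ℕ × ℕ × ℕ × ℕ) =>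
        Sz x.1.2 x.2.2.2.2.1 x.2.2.2.2.2) :=
      primrec_Sz.comp (f := fun x : (Adj × Adj) × (ℕ × ℕ × ℕ × ℕ × ℕ) =>
        (x.1.2, x.2.2.2.2.1, x.2.2.2.2.2)) (Primrec.pair (Primrec.snd.comp Primrec.fst)
        (Primrec.pair (Primrec.fst.comp (Primrec.snd.comp (Primrec.snd.comp
          (Primrec.snd.comp Primrec.snd))))
          (Primrec.snd.comp (Primrec.snd.comp (Primrec.snd.comp (Primrec.snd.comp Primrec.snd))))))
    have h3 : PrimrecRel (fun (T : Adj × Adj) (v : ℕ × ℕ × ℕ × ℕ × ℕ) =>
        Sz T.1 v.2.1 v.2.2.1 ∧ Sz T.2 v.2.2.2.1 v.2.2.2.2) := PrimrecPred.and h1 h2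
    exact PrimrecRel.comp (f := fun x : (ℕ × ℕ × ℕ × ℕ × ℕ) × List (List Bool × List Bool) ×
      List (Adj × Adj) => x.2.2) (g := fun x => x.1) h3.forall_mem_list
      (Primrec.snd.comp Primrec.snd) Primrec.fst
  · have h4 := primrec_Cov.exists_mem_list
    have h5 : PrimrecRel (fun (z : List Bool × List Bool) (w : List (Adj × Adj)) =>
        ∃ T ∈ w, Cov T z) :=
      PrimrecRel.comp (f := fun p : (List Bool × List Bool) × List (Adj × Adj) => p.2)
        (g := fun p => p.1) h4 Primrec.snd Primrec.fst
    exact PrimrecRel.comp (f := fun x : (ℕ × ℕ × ℕ × ℕ × ℕ) × List (List Bool × List Bool) ×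
      List (Adj × Adj) => x.2.1) (g := fun x => x.2.2) h5.forall_mem_list
      (Primrec.fst.comp Primrec.snd) (Primrec.snd.comp Primrec.snd)

/-- every large enough set of edges has a covering of the graph by blocks of the same shape -/
def Homog (G : List (List Bool × List Bool)) : Prop :=
  ∀ (S : Finset (List Bool × List Bool)) (a1 t1 a2 t2 L j : ℕ), (∀ z ∈ S, z ∈ G) →
    2 ^ j ≤ S.card → G.toFinset.card ≤ 2 ^ L →
    (S.image Prod.fst).card ≤ 2 ^ a1 → (∀ u, (S.filter (fun z => z.1 = u)).card ≤ 2 ^ t1) →
    (S.image Prod.snd).card ≤ 2 ^ a2 → (∀ v, (S.filter (fun z => z.2 = v)).card ≤ 2 ^ t2) →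
    ∃ w, Good G (L - j + Nat.size L, a1, t1, a2, t2) w

theorem look_spec {A : Adj} {u v : List Bool} {a t : ℕ} (hA : Sz A a t)
    (h : v ∈ look A u) :
    u ∈ A.map Prod.fst ∧ (look A u).length ≤ 2 ^ t := by
  unfold look at h ⊢
  cases hl : @List.lookup _ _ instBEqOfDecidableEq u A with
  | none => rw [hl] at h; simp at h
  | some l =>
    have hm : (u, l) ∈ A := by
      letI : BEq (List Bool) := instBEqOfDecidableEq
      have := List.lookup_eq_some_iff.1 hl
      obtain ⟨l1, l2, rfl, _⟩ := this
      simp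
    exact ⟨List.mem_map.2 ⟨(u, l), hm, rfl⟩, hA.2 _ hm⟩

end Pool.Agent.H56Z.EP
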