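import Mathlib
import Pool.Agent.H56Z.EP.Basic

set_option autoImplicit false

namespace Pool.Agent.H56Z.EP

open Encodable
open Pool.Agent.Helper760.Kolm

theorem K_memS : ∃ c : ℕ, ∀ (G : List (List Bool × List Bool)) (z : List Bool × List Bool) (m : ℕ),
    z ∈ G → G.toFinset.card ≤ 2 ^ m → K z G ≤ m + c := by
  have hen : Primrec₂ (fun (x : Unit × List (List Bool × List Bool)) (t : ℕ) => x.2[t]?) :=
    (Primrec.list_getElem?.comp (Primrec.snd.comp Primrec.fst) Primrec.snd).to₂
  obtain ⟨c, hc⟩ := K_index hen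
  refine ⟨c, fun G z m hz hm => ?_⟩
  have := hc () G m (by
    intro S hS
    refine le_trans (Finset.card_le_card ?_) hm
    intro a ha
    obtain ⟨t, ht⟩ := hS a ha
    exact List.mem_toFinset.2 (List.mem_of_getElem? ht)) z (by
    obtain ⟨i, hi, rfl⟩ := List.getElem_of_mem hz
    exact ⟨i, List.getElem?_eq_getElem hi⟩)
  simpa using this

/-- the edges which look like a given one from the point of view of `q` -/
noncomputable def typ (G : List (List Bool × List Bool)) (q : List Bool) (g : ℕ × ℕ × ℕ × ℕ) :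
    Finset (List Bool × List Bool) :=
  G.toFinset.filter (fun z => K z.1 q ≤ g.1 ∧ K z.2 (z.1, q) ≤ g.2.1 ∧ K z.2 q ≤ g.2.2.1 ∧
    K z.1 (z.2, q) ≤ g.2.2.2)

theorem K_typ : ∃ c : ℕ, ∀ (G : List (List Bool × List Bool)) (q : List Bool) (g : ℕ × ℕ × ℕ × ℕ)
    (z : List Bool × List Bool) (m : ℕ), z ∈ typ G q g → (typ G q g).card ≤ 2 ^ m →
    K z (G, q) ≤ m + 2 * Nat.size (encode g) + c := by
  let P : ((ℕ × ℕ × ℕ × ℕ) × (List (List Bool × List Bool) × List Bool)) ×
      (ℕ × (List Bool × List Bool)) → Prop := fun x =>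
    x.2.2 ∈ x.1.2.1 ∧ Kle x.2.1 x.1.1.1 x.2.2.1 x.1.2.2 ∧
      Kle x.2.1 x.1.1.2.1 x.2.2.2 (x.2.2.1, x.1.2.2) ∧
      Kle x.2.1 x.1.1.2.2.1 x.2.2.2 x.1.2.2 ∧ Kle x.2.1 x.1.1.2.2.2 x.2.2.1 (x.2.2.2, x.1.2.2)
  have hP : PrimrecPred P := by
    have ht : Primrec (fun x : ((ℕ × ℕ × ℕ × ℕ) × (List (List Bool × List Bool) × List Bool)) ×
      (ℕ × (List Bool × List Bool)) => x.2.1) := Primrec.fst.comp Primrec.snd
    have hz : Primrec (fun x : ((ℕ × ℕ × ℕ × ℕ) × (List (List Bool × List Bool) × List Bool)) ×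
      (ℕ × (List Bool × List Bool)) => x.2.2) := Primrec.snd.comp Primrec.snd
    have hg : Primrec (fun x : ((ℕ × ℕ × ℕ × ℕ) × (List (List Bool × List Bool) × List Bool)) ×
      (ℕ × (List Bool × List Bool)) => x.1.1) := Primrec.fst.comp Primrec.fst
    have hG : Primrec (fun x : ((ℕ × ℕ × ℕ × ℕ) × (List (List Bool × List Bool) × List Bool)) ×
      (ℕ × (List Bool × List Bool)) => x.1.2.1) :=
      Primrec.fst.comp (Primrec.snd.comp Primrec.fst)
    have hq : Primrec (fun x : ((ℕ × ℕ × ℕ × ℕ) × (List (List Bool × List Bool) × List Bool)) ×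
      (ℕ × (List Bool × List Bool)) => x.1.2.2) :=
      Primrec.snd.comp (Primrec.snd.comp Primrec.fst)
    have hu := Primrec.fst.comp hz
    have hv := Primrec.snd.comp hz
    refine PrimrecPred.and (primrec_mem.comp hz hG) (PrimrecPred.and ?_ (PrimrecPred.and ?_
      (PrimrecPred.and ?_ ?_)))
    · exact primrec_Kle.comp (Primrec.pair ht (Primrec.pair (Primrec.fst.comp hg)
        (Primrec.pair hu hq)))
    · exact primrec_Kle.comp (Primrec.pair ht (Primrec.pair
        (Primrec.fst.comp (Primrec.snd.comp hg)) (Primrec.pair hv (Primrec.pair hu hq))))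
    · exact primrec_Kle.comp (Primrec.pair ht (Primrec.pair
        (Primrec.fst.comp (Primrec.snd.comp (Primrec.snd.comp hg))) (Primrec.pair hv hq)))
    · exact primrec_Kle.comp (Primrec.pair ht (Primrec.pair
        (Primrec.snd.comp (Primrec.snd.comp (Primrec.snd.comp hg)))
        (Primrec.pair hu (Primrec.pair hv hq))))
  classical
  let en : (ℕ × ℕ × ℕ × ℕ) × (List (List Bool × List Bool) × List Bool) → ℕ →
      Option (List Bool × List Bool) := fun x t =>
    (decode (α := ℕ × (List Bool × List Bool)) t).bind fun y => if P (x, y) then some y.2 else none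
  have hen : Primrec₂ en := by
    refine Primrec.option_bind (Primrec.decode.comp Primrec.snd) ?_
    refine Primrec.ite ?_ (Primrec.option_some.comp (Primrec.snd.comp Primrec.snd))
      (Primrec.const none)
    exact hP.comp (Primrec.pair (Primrec.fst.comp Primrec.fst) Primrec.snd)
  have hmem : ∀ g G q z, (∃ t, en (g, (G, q)) t = some z) ↔ z ∈ typ G q g := by
    intro g G q z
    simp only [typ, Finset.mem_filter, List.mem_toFinset]
    constructor
    · rintro ⟨t, ht⟩
      simp only [en, Option.bind_eq_some_iff] at ht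
      obtain ⟨y, _, hy⟩ := ht
      split_ifs at hy with h
      cases hy
      obtain ⟨h0, h1, h2, h3, h4⟩ := h
      exact ⟨h0, (K_le_iff _ _ _).2 ⟨_, h1⟩, (K_le_iff _ _ _).2 ⟨_, h2⟩,
        (K_le_iff _ _ _).2 ⟨_, h3⟩, (K_le_iff _ _ _).2 ⟨_, h4⟩⟩
    · rintro ⟨h0, h1, h2, h3, h4⟩
      obtain ⟨t1, h1⟩ := (K_le_iff _ _ _).1 h1
      obtain ⟨t2, h2⟩ := (K_le_iff _ _ _).1 h2
      obtain ⟨t3, h3⟩ := (K_le_iff _ _ _).1 h3
      obtain ⟨t4, h4⟩ := (K_le_iff _ _ _).1 h4
      refine ⟨encode (t1 + t2 + t3 + t4, z), ?_⟩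
      simp only [en, encodek, Option.bind_some]
      rw [if_pos]
      exact ⟨h0, Kle_mono (t' := t1 + t2 + t3 + t4) (by omega) h1,
        Kle_mono (t' := t1 + t2 + t3 + t4) (by omega) h2,
        Kle_mono (t' := t1 + t2 + t3 + t4) (by omega) h3,
        Kle_mono (t' := t1 + t2 + t3 + t4) (by omega) h4⟩
  obtain ⟨c, hc⟩ := K_index hen
  refine ⟨c, fun G q g z m hz hm => ?_⟩
  refine hc g (G, q) m ?_ z ((hmem _ _ _ _).2 hz)
  intro S hS
  refine le_trans (Finset.card_le_card ?_) hm
  intro a ha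
  exact (hmem _ _ _ _).1 (hS a ha)

theorem typ_shape (G : List (List Bool × List Bool)) (q : List Bool) (g : ℕ × ℕ × ℕ × ℕ) :
    ((typ G q g).image Prod.fst).card ≤ 2 ^ (g.1 + 1) ∧
    (∀ u, ((typ G q g).filter (fun z => z.1 = u)).card ≤ 2 ^ (g.2.1 + 1)) ∧
    ((typ G q g).image Prod.snd).card ≤ 2 ^ (g.2.2.1 + 1) ∧
    (∀ v, ((typ G q g).filter (fun z => z.2 = v)).card ≤ 2 ^ (g.2.2.2 + 1)) := by
  refine ⟨?_, fun u => ?_, ?_, fun v => ?_⟩
  · refine (card_le q g.1 _ ?_).le
    intro a ha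
    obtain ⟨z, hz, rfl⟩ := Finset.mem_image.1 ha
    exact (Finset.mem_filter.1 hz).2.1
  · rw [← Finset.card_image_of_injOn (f := Prod.snd)]
    · refine (card_le (u, q) g.2.1 _ ?_).le
      intro a ha
      obtain ⟨z, hz, rfl⟩ := Finset.mem_image.1 ha
      obtain ⟨hz1, rfl⟩ := Finset.mem_filter.1 hz
      exact (Finset.mem_filter.1 hz1).2.2.1
    · intro a ha b hb h
      have h1 := (Finset.mem_filter.1 (Finset.mem_coe.1 ha)).2
      have h2 := (Finset.mem_filter.1 (Finset.mem_coe.1 hb)).2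
      exact Prod.ext (h1.trans h2.symm) h
  · refine (card_le q g.2.2.1 _ ?_).le
    intro a ha
    obtain ⟨z, hz, rfl⟩ := Finset.mem_image.1 ha
    exact (Finset.mem_filter.1 hz).2.2.2.1
  · rw [← Finset.card_image_of_injOn (f := Prod.fst)]
    · refine (card_le (v, q) g.2.2.2 _ ?_).le
      intro a ha
      obtain ⟨z, hz, rfl⟩ := Finset.mem_image.1 ha
      obtain ⟨hz1, rfl⟩ := Finset.mem_filter.1 hz
      exact (Finset.mem_filter.1 hz1).2.2.2.2
    · intro a ha b hb h
      have h1 := (Finset.mem_filter.1 (Finset.mem_coe.1 ha)).2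
      have h2 := (Finset.mem_filter.1 (Finset.mem_coe.1 hb)).2
      exact Prod.ext h (h1.trans h2.symm)

theorem size_enc4 (a b c d l : ℕ) (ha : Nat.size a ≤ l) (hb : Nat.size b ≤ l)
    (hc : Nat.size c ≤ l) (hd : Nat.size d ≤ l) :
    Nat.size (encode ((a, b, c, d) : ℕ × ℕ × ℕ × ℕ)) ≤ 8 * l := by
  simp only [encode_prod_val, encode_nat]
  have h1 := size_pair_le c d
  have h2 := size_pair_le b (Nat.pair c d)
  have h3 := size_pair_le a (Nat.pair b (Nat.pair c d))
  omega

theorem size_enc5 (a b c d e l : ℕ) (ha : Nat.size a ≤ l) (hb : Nat.size b ≤ l)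
    (hc : Nat.size c ≤ l) (hd : Nat.size d ≤ l) (he : Nat.size e ≤ l) :
    Nat.size (encode ((a, b, c, d, e) : ℕ × ℕ × ℕ × ℕ × ℕ)) ≤ 16 * l := by
  have h0 := size_enc4 b c d e l hb hc hd he
  simp only [encode_prod_val, encode_nat] at h0 ⊢
  have h3 := size_pair_le a (Nat.pair b (Nat.pair c (Nat.pair d e)))
  omega

/-- forgetting the condition and applying a computable map -/
theorem K_forget {α β δ : Type*} [Primcodable α] [Primcodable β] [Primcodable δ]
    (F : δ → α) (hF : Computable F) : ∃ c : ℕ, ∀ (d : δ) (b : β), K (F d) b ≤ K d () + c :=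
  K_comp (α := α) (β := β) (γ := Unit) (fun d _ => F d) (hF.comp Computable.fst).to₂
    (fun _ => ()) (Computable.const ())

/-- the relations between the complexities of the parts of a triple -/
theorem triple_facts : ∃ c : ℕ, ∀ x y q : List Bool,
    K (x, q) () ≤ K q () + K x q + 2 * Nat.size (K q ()) + c ∧
    K q () + K x q ≤ K (x, q) () + 6 * Nat.size (K (x, q) ()) + c ∧
    K (x, y, q) () ≤ K q () + K (x, y) q + 2 * Nat.size (K q ()) + c ∧
    K q () + K (x, y) q ≤ K (x, y, q) () + 6 * Nat.size (K (x, y, q) ()) + c ∧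
    K (x, y, q) () ≤ K (x, q) () + K y (x, q) + 2 * Nat.size (K (x, q) ()) + c ∧
    K (x, q) () + K y (x, q) ≤ K (x, y, q) () + 6 * Nat.size (K (x, y, q) ()) + c ∧
    K (x, y, q) () ≤ K (y, q) () + K x (y, q) + 2 * Nat.size (K (y, q) ()) + c ∧
    K (y, q) () + K x (y, q) ≤ K (x, y, q) () + 6 * Nat.size (K (x, y, q) ()) + c ∧
    K (x, y) () ≤ K (x, y, q) () + c := by
  obtain ⟨c1, h1⟩ := K_build (fun (d b : List Bool) => (d, b))
    (Computable.pair Computable.fst Computable.snd).to₂ id Computable.id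
  obtain ⟨c2, h2⟩ := K_split (fun b : List Bool × List Bool => b.2) Primrec.snd
    (fun b => b.1) Computable.fst (id : List Bool → List Bool) Computable.id
  obtain ⟨c3, h3⟩ := K_build (fun (d : List Bool × List Bool) (b : List Bool) => (d.1, d.2, b))
    (Computable.pair (Computable.fst.comp Computable.fst)
      (Computable.pair (Computable.snd.comp Computable.fst) Computable.snd)).to₂ id Computable.id
  obtain ⟨c4, h4⟩ := K_split (fun b : List Bool × List Bool × List Bool => b.2.2)
    (Primrec.snd.comp Primrec.snd) (fun b => (b.1, b.2.1))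
    (Computable.pair Computable.fst (Computable.fst.comp Computable.snd))
    (id : List Bool → List Bool) Computable.id
  obtain ⟨c5, h5⟩ := K_build (fun (d : List Bool) (b : List Bool × List Bool) => (b.1, d, b.2))
    (Computable.pair (Computable.fst.comp Computable.snd)
      (Computable.pair Computable.fst (Computable.snd.comp Computable.snd))).to₂ id Computable.id
  obtain ⟨c6, h6⟩ := K_split (fun b : List Bool × List Bool × List Bool => (b.1, b.2.2))
    (Primrec.pair Primrec.fst (Primrec.snd.comp Primrec.snd)) (fun b => b.2.1)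
    (Computable.fst.comp Computable.snd)
    (id : List Bool × List Bool → List Bool × List Bool) Computable.id
  obtain ⟨c7, h7⟩ := K_build (fun (d : List Bool) (b : List Bool × List Bool) => (d, b.1, b.2))
    (Computable.pair Computable.fst
      (Computable.pair (Computable.fst.comp Computable.snd)
        (Computable.snd.comp Computable.snd))).to₂ id Computable.id
  obtain ⟨c8, h8⟩ := K_split (fun b : List Bool × List Bool × List Bool => (b.2.1, b.2.2))
    (Primrec.pair (Primrec.fst.comp Primrec.snd) (Primrec.snd.comp Primrec.snd)) (fun b => b.1)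
    Computable.fst (id : List Bool × List Bool → List Bool × List Bool) Computable.id
  obtain ⟨c9, h9⟩ := K_map (fun b : List Bool × List Bool × List Bool => (b.1, b.2.1))
    (Computable.pair Computable.fst (Computable.fst.comp Computable.snd))
  refine ⟨c1 + c2 + c3 + c4 + c5 + c6 + c7 + c8 + c9, fun x y q => ?_⟩
  have e1 := h1 x q
  have e2 := h2 (x, q) q rfl
  have e3 := h3 (x, y) q
  have e4 := h4 (x, y, q) q rfl
  have e5 := h5 y (x, q)
  have e6 := h6 (x, y, q) (x, q) rfl
  have e7 := h7 x (y, q)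
  have e8 := h8 (x, y, q) (y, q) rfl
  have e9 := h9 (x, y, q)
  simp only [id] at e1 e2 e3 e4 e5 e6 e7 e8 e9
  refine ⟨?_, ?_, ?_, ?_, ?_, ?_, ?_, ?_, ?_⟩ <;> omega

/-- what can be read from a block with noise -/
theorem block_facts : ∃ c : ℕ, ∀ (T : Adj × Adj) (r x y : List Bool) (a1 t1 a2 t2 : ℕ),
    Sz T.1 a1 t1 → Sz T.2 a2 t2 → Cov T (x, y) →
    K (str (T, r)) () ≤ K T () + r.length + 2 * Nat.size (K T ()) + c ∧
    K x (str (T, r)) ≤ a1 + c ∧ K y (str (T, r)) ≤ a2 + c ∧
    K y (x, str (T, r)) ≤ t1 + c ∧ K x (y, str (T, r)) ≤ t2 + c ∧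
    K (x, y) () + K r (x, y) ≤ K (x, y, str (T, r)) () +
      6 * Nat.size (K (x, y, str (T, r)) ()) + c := by
  have hu : Primrec (unstr : List Bool → (Adj × Adj) × List Bool) := primrec_unstr
  obtain ⟨c1, h1⟩ := K_build (fun (d : List Bool) (b : Adj × Adj) => str (b, d))
    (primrec_str.to_comp.comp (Computable.pair Computable.snd Computable.fst)).to₂ id Computable.id
  obtain ⟨c2, h2⟩ := K_len' (β := Adj × Adj)
  have hmap : Primrec (fun A : Adj => A.map Prod.fst) :=
    Primrec.list_map Primrec.id (Primrec.fst.comp Primrec.snd).to₂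
  obtain ⟨c3, h3⟩ := K_mem (fun b : List Bool =>
    ((unstr b : (Adj × Adj) × List Bool).1.1).map Prod.fst)
    (hmap.comp (Primrec.fst.comp (Primrec.fst.comp hu))).to_comp
  obtain ⟨c4, h4⟩ := K_mem (fun b : List Bool =>
    ((unstr b : (Adj × Adj) × List Bool).1.2).map Prod.fst)
    (hmap.comp (Primrec.snd.comp (Primrec.fst.comp hu))).to_comp
  obtain ⟨c5, h5⟩ := K_mem (fun b : List Bool × List Bool =>
    look (unstr b.2 : (Adj × Adj) × List Bool).1.1 b.1)
    (primrec_look.comp (Primrec.fst.comp (Primrec.fst.comp (hu.comp Primrec.snd)))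
      Primrec.fst).to_comp
  obtain ⟨c6, h6⟩ := K_mem (fun b : List Bool × List Bool =>
    look (unstr b.2 : (Adj × Adj) × List Bool).1.2 b.1)
    (primrec_look.comp (Primrec.snd.comp (Primrec.fst.comp (hu.comp Primrec.snd)))
      Primrec.fst).to_comp
  obtain ⟨c7, h7⟩ := K_split (fun b : List Bool × List Bool × List Bool => (b.1, b.2.1))
    (Primrec.pair Primrec.fst (Primrec.fst.comp Primrec.snd))
    (fun b => (unstr b.2.2 : (Adj × Adj) × List Bool).2)
    (Primrec.snd.comp (hu.comp (Primrec.snd.comp Primrec.snd))).to_comp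
    (id : List Bool × List Bool → List Bool × List Bool) Computable.id
  refine ⟨c1 + c2 + c3 + c4 + c5 + c6 + c7, fun T r x y a1 t1 a2 t2 s1 s2 hc => ?_⟩
  obtain ⟨l1, l2⟩ := look_spec s1 hc.1
  obtain ⟨l3, l4⟩ := look_spec s2 hc.2
  have e1 := h1 r T
  have e2 := h2 r T
  have e3 := h3 (str (T, r)) x a1 (by rw [unstr_str]; exact l1)
    (by rw [unstr_str, List.length_map]; exact s1.1)
  have e4 := h4 (str (T, r)) y a2 (by rw [unstr_str]; exact l3)
    (by rw [unstr_str, List.length_map]; exact s2.1)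
  have e5 := h5 (x, str (T, r)) y t1 (by simp only [unstr_str]; exact hc.1)
    (by simp only [unstr_str]; exact l2)
  have e6 := h6 (y, str (T, r)) x t2 (by simp only [unstr_str]; exact hc.2)
    (by simp only [unstr_str]; exact l4)
  have e7 := h7 (x, y, str (T, r)) (x, y) rfl
  simp only [id, unstr_str] at e1 e7
  refine ⟨?_, ?_, ?_, ?_, ?_, ?_⟩ <;> omega

end Pool.Agent.H56Z.EP
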