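import Mathlib
import Pool.Agent.H56Z.EP.Basic

set_option autoImplicit false
set_option linter.unusedSectionVars false
set_option linter.style.haveILetI false

namespace Pool.Agent.H56Z.EP

open Finset

section greedy
variable {Γ X : Type*} [Group Γ] [Fintype Γ] [Fintype X] [DecidableEq X] [MulAction Γ X]
  [MulAction.IsPretransitive Γ X]

theorem count_fiber (s u : X) :
    (univ.filter (fun g : Γ => g • s = u)).card * Fintype.card X = Fintype.card Γ := by
  classical
  have h1 : ∀ u : X, (univ.filter (fun g : Γ => g • s = u)).card =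
      (univ.filter (fun g : Γ => g • s = s)).card := by
    intro u
    obtain ⟨g0, hg0⟩ := MulAction.exists_smul_eq Γ s u
    refine card_bij (fun g _ => g0⁻¹ * g) ?_ ?_ ?_
    · intro g hg
      rw [mem_filter] at hg ⊢
      refine ⟨mem_univ _, ?_⟩
      rw [mul_smul, hg.2, ← hg0, inv_smul_smul]
    · intro g _ g' _ h
      exact mul_left_cancel h
    · intro g hg
      rw [mem_filter] at hg
      refine ⟨g0 * g, ?_, by group⟩
      rw [mem_filter]
      refine ⟨mem_univ _, ?_⟩
      rw [mul_smul, hg.2, hg0]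
  have h2 : Fintype.card Γ = ∑ v : X, (univ.filter (fun g : Γ => g • s = v)).card := by
    rw [← card_univ]
    exact card_eq_sum_card_fiberwise (f := fun g : Γ => g • s) (fun _ _ => mem_univ _)
  rw [h2, sum_congr rfl (fun v _ => h1 v), h1 u, sum_const, card_univ, smul_eq_mul, mul_comm]

/-- the points not covered by the translates -/
def unc (S : Finset X) (gs : List Γ) : Finset X :=
  univ.filter (fun x => ∀ g ∈ gs, x ∉ S.image (fun s => g • s))

theorem greedy (S : Finset X) (hS : S.Nonempty) (N : ℕ) :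
    ∃ gs : List Γ, gs.length = N ∧ ((unc S gs).card : ℝ) ≤
      Fintype.card X * (1 - (S.card : ℝ) / Fintype.card X) ^ N := by
  classical
  obtain ⟨x0, hx0⟩ := hS
  have hX0 : (0 : ℝ) < Fintype.card X := by
    exact_mod_cast Fintype.card_pos_iff.2 ⟨x0⟩
  have hΓ0 : (0 : ℝ) < Fintype.card Γ := by
    exact_mod_cast Fintype.card_pos_iff.2 ⟨1⟩
  have hρ : (0 : ℝ) ≤ 1 - (S.card : ℝ) / Fintype.card X := by
    rw [sub_nonneg, div_le_one hX0]
    exact_mod_cast card_le_univ S
  induction N with
  | zero =>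
    refine ⟨[], rfl, ?_⟩
    simp only [pow_zero, mul_one]
    exact_mod_cast card_le_univ _
  | succ N ih =>
    obtain ⟨gs, hN, hU⟩ := ih
    set U := unc S gs with hUd
    have hsum : (∑ g : Γ, ((S.filter (fun s => g • s ∈ U)).card : ℝ)) * Fintype.card X =
        S.card * U.card * Fintype.card Γ := by
      have h1 : (∑ g : Γ, (S.filter (fun s => g • s ∈ U)).card) * Fintype.card X =
          S.card * U.card * Fintype.card Γ := by
        simp_rw [card_filter]
        rw [sum_comm, sum_mul]
        have h2 : ∀ s ∈ S, (∑ g : Γ, (if g • s ∈ U then 1 else 0)) * Fintype.card X =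
            U.card * Fintype.card Γ := by
          intro s _
          rw [← card_filter]
          have h3 : (univ.filter (fun g : Γ => g • s ∈ U)).card =
              ∑ u ∈ U, (univ.filter (fun g : Γ => g • s = u)).card := by
            rw [card_eq_sum_card_fiberwise (f := fun g : Γ => g • s) (t := U)
              (s := univ.filter (fun g : Γ => g • s ∈ U)) (fun g hg => by simpa using hg)]
            refine sum_congr rfl (fun u hu => ?_)
            congr 1
            ext g
            simp only [mem_filter, mem_univ, true_and]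
            constructor
            · exact fun h => h.2
            · intro h; exact ⟨h ▸ hu, h⟩
          rw [h3, sum_mul, sum_congr rfl (fun u _ => count_fiber s u), sum_const, smul_eq_mul]
        rw [sum_congr rfl h2, sum_const, smul_eq_mul, mul_assoc]
      exact_mod_cast h1
    have hG0 : (univ : Finset Γ).Nonempty := ⟨1, mem_univ _⟩
    obtain ⟨g, _, hg⟩ := exists_le_of_sum_le (s := (univ : Finset Γ))
      (f := fun _ => (S.card : ℝ) * U.card / Fintype.card X)
      (g := fun g => ((S.filter (fun s => g • s ∈ U)).card : ℝ)) hG0 (by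
        rw [sum_const, card_univ, nsmul_eq_mul, ← mul_div_assoc, div_le_iff₀ hX0, hsum]
        exact le_of_eq (by ring))
    refine ⟨g :: gs, by simp [hN], ?_⟩
    have h3 : unc S (g :: gs) = U \ S.image (fun s => g • s) := by
      ext x
      simp only [hUd, unc, mem_filter, mem_univ, true_and, List.mem_cons, forall_eq_or_imp,
        mem_sdiff]
      tauto
    have h4 : (U ∩ S.image (fun s => g • s)).card = (S.filter (fun s => g • s ∈ U)).card := by
      rw [← card_image_of_injective (S.filter (fun s => g • s ∈ U)) (MulAction.injective g)]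
      congr 1
      ext x
      simp only [mem_inter, mem_image, mem_filter]
      constructor
      · rintro ⟨h, s, hs, rfl⟩; exact ⟨s, ⟨hs, h⟩, rfl⟩
      · rintro ⟨s, ⟨hs, h⟩, rfl⟩; exact ⟨h, s, hs, rfl⟩
    have h5 : ((unc S (g :: gs)).card : ℝ) =
        U.card - (S.filter (fun s => g • s ∈ U)).card := by
      rw [h3, ← h4, ← sdiff_inter_self_left U, cast_card_sdiff inter_subset_left]
    rw [h5, pow_succ]
    have h6 : (U.card : ℝ) - (S.card : ℝ) * U.card / Fintype.card X =
        U.card * (1 - (S.card : ℝ) / Fintype.card X) := by ring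
    calc (U.card : ℝ) - ((S.filter (fun s => g • s ∈ U)).card : ℝ) ≤
        U.card * (1 - (S.card : ℝ) / Fintype.card X) := by rw [← h6]; linarith
      _ ≤ (Fintype.card X * (1 - (S.card : ℝ) / Fintype.card X) ^ N) *
          (1 - (S.card : ℝ) / Fintype.card X) := by gcongr
      _ = _ := by ring

theorem cover (S : Finset X) (L j : ℕ) (hj : 2 ^ j ≤ S.card) (hL : Fintype.card X ≤ 2 ^ L) :
    ∃ gs : List Γ, gs.length ≤ 2 ^ (L - j + Nat.size L) ∧
      ∀ x, ∃ g ∈ gs, x ∈ S.image (fun s => g • s) := by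
  have hSpos : 0 < S.card := lt_of_lt_of_le (by positivity) hj
  have hS : S.Nonempty := card_pos.1 hSpos
  have hS0 : (0 : ℝ) < S.card := by exact_mod_cast hSpos
  have hX0 : (0 : ℝ) < Fintype.card X := by
    obtain ⟨x, _⟩ := hS
    exact_mod_cast Fintype.card_pos_iff.2 ⟨x⟩
  have hjL : j ≤ L := by
    have a2 : 2 ^ j ≤ 2 ^ L := le_trans hj (le_trans (card_le_univ S) hL)
    exact (Nat.pow_le_pow_iff_right (by norm_num)).1 a2
  obtain ⟨gs, h1, h2⟩ := greedy (Γ := Γ) S hS (2 ^ (L - j) * (L + 1))
  refine ⟨gs, ?_, ?_⟩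
  · rw [h1, pow_add]
    exact Nat.mul_le_mul_left _ (Nat.lt_size_self L)
  · have h3 : (Fintype.card X : ℝ) *
        (1 - (S.card : ℝ) / Fintype.card X) ^ (2 ^ (L - j) * (L + 1)) < 1 := by
      set ρ := (S.card : ℝ) / Fintype.card X with hρ
      have hρ0 : 0 < ρ := by positivity
      have hρ1 : ρ ≤ 1 := by
        rw [hρ, div_le_one hX0]
        exact_mod_cast card_le_univ S
      have hρ2 : 1 ≤ ρ * 2 ^ (L - j) := by
        rw [hρ, div_mul_eq_mul_div, one_le_div hX0]
        have a1 : Fintype.card X ≤ S.card * 2 ^ (L - j) := by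
          calc Fintype.card X ≤ 2 ^ L := hL
            _ = 2 ^ j * 2 ^ (L - j) := by rw [← pow_add]; congr 1; omega
            _ ≤ _ := Nat.mul_le_mul_right _ hj
        exact_mod_cast a1
      have h4 : 1 - ρ ≤ Real.exp (-ρ) := by
        have := Real.add_one_le_exp (-ρ); linarith
      have h5 : (1 - ρ) ^ (2 ^ (L - j)) ≤ 1 / 2 := by
        calc (1 - ρ) ^ (2 ^ (L - j)) ≤ Real.exp (-ρ) ^ (2 ^ (L - j)) := by
              gcongr
          _ = Real.exp (-(ρ * 2 ^ (L - j))) := by
              rw [← Real.exp_nat_mul]; congr 1; push_cast; ring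
          _ ≤ Real.exp (-1) := Real.exp_le_exp.2 (by linarith)
          _ ≤ 1 / 2 := by
              rw [Real.exp_neg, one_div]
              refine inv_anti₀ (by norm_num) ?_
              have := Real.add_one_le_exp (1 : ℝ); linarith
      have h6 : (1 - ρ) ^ (2 ^ (L - j) * (L + 1)) ≤ (1 / 2) ^ (L + 1) := by
        rw [pow_mul]
        have : 0 ≤ (1 - ρ) ^ (2 ^ (L - j)) := pow_nonneg (by linarith) _
        gcongr
      have h7 : (Fintype.card X : ℝ) ≤ 2 ^ L := by exact_mod_cast hL
      calc (Fintype.card X : ℝ) * (1 - ρ) ^ (2 ^ (L - j) * (L + 1)) ≤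
          2 ^ L * (1 / 2) ^ (L + 1) := by
            have : 0 ≤ (1 - ρ) ^ (2 ^ (L - j) * (L + 1)) := pow_nonneg (by linarith) _
            gcongr
        _ = 1 / 2 := by rw [pow_succ, ← mul_assoc, ← mul_pow]; norm_num
        _ < 1 := by norm_num
    have h4 : (unc S gs).card = 0 := by
      have : ((unc S gs).card : ℝ) < 1 := lt_of_le_of_lt h2 h3
      have h5 : (unc S gs).card < 1 := by exact_mod_cast this
      omega
    intro x
    by_contra hx
    push Not at hx
    rw [card_eq_zero] at h4
    have : x ∈ unc S gs := mem_filter.2 ⟨mem_univ _, hx⟩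
    rw [h4] at this
    simp at this

end greedy

/-- adjacency lists of a finite set of edges -/
noncomputable def adjOf (S : Finset (List Bool × List Bool)) : Adj :=
  (S.image Prod.fst).toList.map (fun u => (u, ((S.filter (fun z => z.1 = u)).image Prod.snd).toList))

theorem lookup_map (f : List Bool → List (List Bool)) (l : List (List Bool)) (u : List Bool)
    (hu : u ∈ l) : look (l.map (fun v => (v, f v))) u = f u := by
  unfold look
  induction l with
  | nil => simp at hu
  | cons a l ih =>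
    by_cases h : u = a
    · subst h; simp [List.lookup]
    · have hu' : u ∈ l := by
        rcases List.mem_cons.1 hu with h' | h'
        · exact absurd h' h
        · exact h'
      have h2 : (@BEq.beq _ instBEqOfDecidableEq u a) = false := by simpa using h
      simp only [List.map_cons, List.lookup, h2]
      exact ih hu'

theorem adjOf_mem (S : Finset (List Bool × List Bool)) (z : List Bool × List Bool) (hz : z ∈ S) :
    z.2 ∈ look (adjOf S) z.1 := by
  unfold adjOf
  rw [lookup_map (fun u => ((S.filter (fun z => z.1 = u)).image Prod.snd).toList) _ _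
    (Finset.mem_toList.2 (mem_image_of_mem _ hz))]
  exact Finset.mem_toList.2 (mem_image_of_mem _ (mem_filter.2 ⟨hz, rfl⟩))

theorem adjOf_sz (S : Finset (List Bool × List Bool)) (a t : ℕ)
    (h1 : (S.image Prod.fst).card ≤ 2 ^ a) (h2 : ∀ u, (S.filter (fun z => z.1 = u)).card ≤ 2 ^ t) :
    Sz (adjOf S) a t := by
  refine ⟨?_, ?_⟩
  · simpa [adjOf] using h1
  · intro r hr
    obtain ⟨u, _, rfl⟩ := List.mem_map.1 hr
    simp only [length_toList]
    exact le_trans card_image_le (h2 u)

theorem shape_image (S : Finset (List Bool × List Bool)) (φ ψ : List Bool → List Bool)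
    (hφ : ∀ z ∈ S, ∀ z' ∈ S, φ z.1 = φ z'.1 → z.1 = z'.1) (a t : ℕ)
    (h1 : (S.image Prod.fst).card ≤ 2 ^ a) (h2 : ∀ u, (S.filter (fun z => z.1 = u)).card ≤ 2 ^ t) :
    ((S.image (fun z => (φ z.1, ψ z.2))).image Prod.fst).card ≤ 2 ^ a ∧
    ∀ u, ((S.image (fun z => (φ z.1, ψ z.2))).filter (fun z => z.1 = u)).card ≤ 2 ^ t := by
  refine ⟨?_, fun u => ?_⟩
  · have : (S.image (fun z => (φ z.1, ψ z.2))).image Prod.fst = (S.image Prod.fst).image φ := by
      rw [image_image, image_image]; rfl
    rw [this]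
    exact le_trans card_image_le h1
  · by_cases h : ∃ z ∈ S, φ z.1 = u
    · obtain ⟨z0, hz0, hu⟩ := h
      refine le_trans (card_le_card (t := (S.filter (fun z => z.1 = z0.1)).image
        (fun z => (φ z.1, ψ z.2))) ?_) (le_trans card_image_le (h2 z0.1))
      intro w hw
      obtain ⟨hw1, hw2⟩ := mem_filter.1 hw
      obtain ⟨z, hz, rfl⟩ := mem_image.1 hw1
      exact mem_image_of_mem _ (mem_filter.2 ⟨hz, hφ z hz z0 hz0 (hw2.trans hu.symm)⟩)
    · have : (S.image (fun z => (φ z.1, ψ z.2))).filter (fun z => z.1 = u) = ∅ := by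
        apply eq_empty_of_forall_notMem
        intro w hw
        obtain ⟨hw1, hw2⟩ := mem_filter.1 hw
        obtain ⟨z, hz, rfl⟩ := mem_image.1 hw1
        exact h ⟨z, hz, hw2⟩
      rw [this]; simp

/-- An edge-transitive bipartite graph is homogeneous. -/
theorem homog_of_trans {X Y : Type} [Finite X] [Finite Y] (R : X → Y → Prop)
    (cX : X → List Bool) (cY : Y → List Bool) (hX : Function.Injective cX)
    (hY : Function.Injective cY) (G : List (List Bool × List Bool))
    (hG : ∀ u v, (u, v) ∈ G ↔ ∃ x y, R x y ∧ u = cX x ∧ v = cY y)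
    (ht : ∀ x y x' y', R x y → R x' y' → ∃ (a : Equiv.Perm X) (b : Equiv.Perm Y),
      (∀ x y, R x y ↔ R (a x) (b y)) ∧ a x = x' ∧ b y = y') : Homog G := by
  classical
  intro S a1 t1 a2 t2 L j hSG hj hL s1 s2 s3 s4
  let Γ : Subgroup (Equiv.Perm X × Equiv.Perm Y) :=
    { carrier := {g | ∀ x y, R x y ↔ R (g.1 x) (g.2 y)}
      one_mem' := by intro x y; simp
      mul_mem' := by
        intro a b ha hb x y
        rw [hb x y, ha]
        simp
      inv_mem' := by
        intro a ha x y
        rw [ha (a⁻¹.1 x) (a⁻¹.2 y)]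
        simp }
  let E := {z : X × Y // R z.1 z.2}
  letI : Fintype Γ := Fintype.ofFinite _
  letI : Fintype E := Fintype.ofFinite _
  letI : MulAction Γ E :=
    { smul := fun g z => ⟨(g.1.1 z.1.1, g.1.2 z.1.2), (g.2 _ _).1 z.2⟩
      one_smul := fun z => rfl
      mul_smul := fun a b z => rfl }
  haveI : MulAction.IsPretransitive Γ E := ⟨fun z z' => by
    obtain ⟨a, b, h1, h2, h3⟩ := ht _ _ _ _ z.2 z'.2
    exact ⟨⟨(a, b), h1⟩, Subtype.ext (Prod.ext h2 h3)⟩⟩
  let code : E → List Bool × List Bool := fun z => (cX z.1.1, cY z.1.2)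
  have hcode : Function.Injective code := by
    intro z z' h
    exact Subtype.ext (Prod.ext (hX (congrArg Prod.fst h)) (hY (congrArg Prod.snd h)))
  have hmem : ∀ w, w ∈ G ↔ ∃ z, code z = w := by
    rintro ⟨u, v⟩
    rw [hG]
    constructor
    · rintro ⟨x, y, h, rfl, rfl⟩; exact ⟨⟨(x, y), h⟩, rfl⟩
    · rintro ⟨z, hz⟩
      exact ⟨_, _, z.2, (congrArg Prod.fst hz).symm, (congrArg Prod.snd hz).symm⟩
  have hcardE : Fintype.card E ≤ 2 ^ L := by
    refine le_trans ?_ hL
    rw [← card_univ, ← card_image_of_injective _ hcode]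
    refine card_le_card ?_
    intro w hw
    obtain ⟨z, _, rfl⟩ := mem_image.1 hw
    exact List.mem_toFinset.2 ((hmem _).2 ⟨z, rfl⟩)
  let S' : Finset E := univ.filter (fun z => code z ∈ S)
  have hS' : S'.image code = S := by
    ext w
    simp only [S', mem_image, mem_filter, mem_univ, true_and]
    constructor
    · rintro ⟨z, hz, rfl⟩; exact hz
    · intro hw
      obtain ⟨z, rfl⟩ := (hmem w).1 (hSG w hw)
      exact ⟨z, hw, rfl⟩
  have hcardS : 2 ^ j ≤ S'.card := by
    rw [← card_image_of_injective _ hcode, hS']; exact hj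
  obtain ⟨gs, hgs1, hgs2⟩ := cover (Γ := Γ) S' L j hcardS hcardE
  let φ : Γ → List Bool → List Bool := fun g => Function.extend cX (fun x => cX (g.1.1 x)) id
  let ψ : Γ → List Bool → List Bool := fun g => Function.extend cY (fun y => cY (g.1.2 y)) id
  have hφ : ∀ g x, φ g (cX x) = cX (g.1.1 x) := fun g x => hX.extend_apply _ _ x
  have hψ : ∀ g y, ψ g (cY y) = cY (g.1.2 y) := fun g y => hY.extend_apply _ _ y
  let Sg : Γ → Finset (List Bool × List Bool) := fun g => S.image (fun z => (φ g z.1, ψ g z.2))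
  refine ⟨gs.map (fun g => (adjOf (Sg g), adjOf ((Sg g).image Prod.swap))), ?_, ?_, ?_⟩
  · simpa using hgs1
  · intro T hT
    obtain ⟨g, _, rfl⟩ := List.mem_map.1 hT
    have i1 : ∀ z ∈ S, ∀ z' ∈ S, φ g z.1 = φ g z'.1 → z.1 = z'.1 := by
      intro z hz z' hz' h
      obtain ⟨w, rfl⟩ := (hmem z).1 (hSG z hz)
      obtain ⟨w', rfl⟩ := (hmem z').1 (hSG z' hz')
      simp only [code, hφ] at h ⊢
      rw [g.1.1.injective (hX h)]
    have i2 : ∀ z ∈ S.image Prod.swap, ∀ z' ∈ S.image Prod.swap,
        ψ g z.1 = ψ g z'.1 → z.1 = z'.1 := by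
      intro z hz z' hz' h
      obtain ⟨z0, hz0, rfl⟩ := mem_image.1 hz
      obtain ⟨z1, hz1, rfl⟩ := mem_image.1 hz'
      obtain ⟨w, rfl⟩ := (hmem z0).1 (hSG z0 hz0)
      obtain ⟨w', rfl⟩ := (hmem z1).1 (hSG z1 hz1)
      simp only [code, Prod.fst_swap, hψ] at h ⊢
      rw [g.1.2.injective (hY h)]
    obtain ⟨b1, b2⟩ := shape_image S (φ g) (ψ g) i1 a1 t1 s1 s2
    have e1 : (S.image Prod.swap).image Prod.fst = S.image Prod.snd := by
      rw [image_image]; rfl
    have e2 : ∀ u, ((S.image Prod.swap).filter (fun z => z.1 = u)).card ≤ 2 ^ t2 := by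
      intro u
      refine le_trans (card_le_card (t := (S.filter (fun z => z.2 = u)).image Prod.swap) ?_)
        (le_trans card_image_le (s4 u))
      intro w hw
      obtain ⟨hw1, hw2⟩ := mem_filter.1 hw
      obtain ⟨z, hz, rfl⟩ := mem_image.1 hw1
      exact mem_image_of_mem _ (mem_filter.2 ⟨hz, hw2⟩)
    obtain ⟨b3, b4⟩ := shape_image (S.image Prod.swap) (ψ g) (φ g) i2 a2 t2 (e1 ▸ s3) e2
    have e3 : (Sg g).image Prod.swap =
        (S.image Prod.swap).image (fun z => (ψ g z.1, φ g z.2)) := by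
      simp only [Sg, image_image]; rfl
    exact ⟨adjOf_sz _ _ _ b1 b2, by rw [e3]; exact adjOf_sz _ _ _ b3 b4⟩
  · intro w hw
    obtain ⟨z, rfl⟩ := (hmem w).1 hw
    obtain ⟨g, hg, hz⟩ := hgs2 z
    obtain ⟨s, hs, rfl⟩ := mem_image.1 hz
    have hin : code (g • s) ∈ Sg g := by
      refine mem_image.2 ⟨code s, (mem_filter.1 hs).2, ?_⟩
      simp only [code, hφ, hψ]
      rfl
    refine ⟨_, List.mem_map.2 ⟨g, hg, rfl⟩, adjOf_mem _ _ hin, ?_⟩
    exact adjOf_mem _ (code (g • s)).swap (mem_image_of_mem _ hin)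

end Pool.Agent.H56Z.EP
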