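import Mathlib
import Pool.Agent.Helper760.EP.Defs

set_option autoImplicit false

namespace Pool.Agent.H56Z.EP

open Pool.Agent.Helper760.EP

/-- The lines of the affine plane over `F`: the sets `b = k a + c` and the vertical lines
`a = c`. -/
def IsLine {F : Type} [Field F] (l : Set (F × F)) : Prop :=
  (∃ k c : F, l = {p | p.2 = k * p.1 + c}) ∨ ∃ c : F, l = {p | p.1 = c}

/-- `(x, y)` is the pair of codes of an incident pair (line, point), where lines are written as
strings by `cl` and points by `cp`. -/
def IsEdge {F : Type} [Field F] (cl : Set (F × F) → List Bool) (cp : F × F → List Bool)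
    (x y : List Bool) : Prop :=
  ∃ (l : Set (F × F)) (p : F × F), IsLine l ∧ p ∈ l ∧ x = cl l ∧ y = cp p

/-- The conventions, with logarithmic precision `k log n`: the field has about `2 ^ n` elements,
different lines have different codes, different points have different codes, and the incidence
graph (some list of all coded edges, written as a string by `enc`) has complexity at most
`k log n`. -/
def SimplePlane (U : List Bool →. List Bool) (enc : List (List Bool × List Bool) → List Bool)
    (k : ℝ) (n : ℕ) (F : Type) [Field F] [Fintype F] (cl : Set (F × F) → List Bool)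
    (cp : F × F → List Bool) : Prop :=
  |Real.logb 2 (Fintype.card F) - n| ≤ k * Real.logb 2 n ∧
    Set.InjOn cl {l | IsLine l} ∧ Function.Injective cp ∧
    ∃ G : List (List Bool × List Bool), (∀ x y, (x, y) ∈ G ↔ IsEdge cl cp x y) ∧
      (CU U (enc G) : ℝ) ≤ k * Real.logb 2 n

/-- A random edge: an edge of complexity at least `3 n - k log n`. -/
def RandomEdge (U : List Bool →. List Bool) (pr : List Bool → List Bool → List Bool)
    (k : ℝ) (n : ℕ) {F : Type} [Field F] (cl : Set (F × F) → List Bool)
    (cp : F × F → List Bool) (x y : List Bool) : Prop :=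
  IsEdge cl cp x y ∧ 3 * (n : ℝ) - k * Real.logb 2 n ≤ CU U (pr x y)

end Pool.Agent.H56Z.EP
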