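import Mathlib
import Pool.Agent.H56Z.EP.Core

set_option autoImplicit false

namespace Pool.Agent.H56Z.EP

open Encodable
open Pool.Agent.Helper760.Kolm

/-- Transfer of the four coordinates involving `q` from one random edge to another. -/
theorem core : ∃ C : ℕ, ∀ (G : List (List Bool × List Bool)) (L s : ℕ) (x y x' y' q : List Bool),
    Homog G → G.toFinset.card ≤ 2 ^ L → K G () ≤ s → (x, y) ∈ G → (x', y') ∈ G →
    L ≤ K (x, y) () + s → L ≤ K (x', y') () + s →
    ∃ q' : List Bool, ∀ e : ℕ, C * (s + Nat.size (L + s + K q () + 1) + 1) ≤ e →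
      (K q' () ≤ K q () + e ∧ K q () ≤ K q' () + e) ∧
      (K (x', q') () ≤ K (x, q) () + e ∧ K (x, q) () ≤ K (x', q') () + e) ∧
      (K (y', q') () ≤ K (y, q) () + e ∧ K (y, q) () ≤ K (y', q') () + e) ∧
      (K (x', y', q') () ≤ K (x, y, q) () + e ∧ K (x, y, q) () ≤ K (x', y', q') () + e) := by
  obtain ⟨c1, h1⟩ := K_memS
  obtain ⟨c2, h2⟩ := K_typ
  obtain ⟨c3, h3⟩ := triple_facts
  obtain ⟨c4, h4⟩ := block_facts
  obtain ⟨c5, h5⟩ := K_chain0 (α := List (List Bool × List Bool)) (β := List Bool × List Bool)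
  obtain ⟨c6, h6⟩ := K_chain (α := List (List Bool × List Bool)) (β := List Bool × List Bool)
    (γ := List Bool)
  obtain ⟨c7, h7⟩ := K_forget (β := List Bool) (id : List (List Bool × List Bool) → _)
    Computable.id
  obtain ⟨c8, h8⟩ := K_forget (β := List Bool) (fun z : List Bool × List Bool => z.1)
    Computable.fst
  obtain ⟨c9, h9⟩ := K_forget (β := List Bool) (fun z : List Bool × List Bool => z.2)
    Computable.snd
  obtain ⟨c10, h10⟩ := K_forget (β := List Bool × List Bool) (fun z : List Bool × List Bool => z.1)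
    Computable.fst
  obtain ⟨c11, h11⟩ := K_forget (β := List Bool × List Bool) (fun z : List Bool × List Bool => z.2)
    Computable.snd
  obtain ⟨c12, h12⟩ := K_forget (β := List Bool) (id : List Bool × List Bool → _) Computable.id
  obtain ⟨c13, h13⟩ := K_search _ primrec_Good
  obtain ⟨c14, h14⟩ := K_chain0 (α := List (List Bool × List Bool)) (β := List (Adj × Adj))
  obtain ⟨c15, h15⟩ := K_mem (id : List (Adj × Adj) → _) Computable.id
  obtain ⟨c16, h16⟩ := K_chain0 (α := List (Adj × Adj)) (β := Adj × Adj)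
  set c0 := c1 + c2 + c3 + c4 + c5 + c6 + c7 + c8 + c9 + c10 + c11 + c12 + c13 + c14 + c15 + c16
    with hc0
  refine ⟨1000 * (c0 + Nat.size (100000 * (c0 + 1)) + 1), ?_⟩
  intro G L s x y x' y' q hH hL hG he he' hr hr'
  set N := K q () with hN
  set M := L + s + N + 1 with hM
  set lam := Nat.size (100000 * (c0 + 1)) + Nat.size M with hlam
  have hs : ∀ Q, Q ≤ 100000 * M + 99000 * c0 → Nat.size Q ≤ lam := by
    intro Q hQ
    have a1 : Q ≤ 100000 * (c0 + 1) * M := by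
      have : c0 ≤ c0 * M := Nat.le_mul_of_pos_right _ (by omega)
      nlinarith
    exact le_trans (size_mono a1) (size_mul_le _ _)
  have hlamM : ∀ Q, Nat.size Q ≤ Q := size_le_self
  -- the parameters of the edge `(x, y)`
  have hc : c1 ≤ c0 ∧ c2 ≤ c0 ∧ c3 ≤ c0 ∧ c4 ≤ c0 ∧ c5 ≤ c0 ∧ c6 ≤ c0 ∧ c7 ≤ c0 ∧ c8 ≤ c0 ∧
      c9 ≤ c0 ∧ c10 ≤ c0 ∧ c11 ≤ c0 ∧ c12 ≤ c0 ∧ c13 ≤ c0 ∧ c14 ≤ c0 ∧ c15 ≤ c0 ∧ c16 ≤ c0 := by
    rw [hc0]; refine ⟨?_, ?_, ?_, ?_, ?_, ?_, ?_, ?_, ?_, ?_, ?_, ?_, ?_, ?_, ?_, ?_⟩ <;> omega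
  obtain ⟨d1, d2, d3, d4, d5, d6, d7, d8, d9, d10, d11, d12, d13, d14, d15, d16⟩ := hc
  have hE0 : 1000 * s + 1000 * lam + 1000 * c0 + 1000 ≤
      1000 * (c0 + Nat.size (100000 * (c0 + 1)) + 1) * (s + Nat.size M + 1) := by
    rw [hlam]
    nlinarith [Nat.zero_le (c0 * s), Nat.zero_le (c0 * Nat.size M),
      Nat.zero_le (Nat.size (100000 * (c0 + 1)) * s),
      Nat.zero_le (Nat.size (100000 * (c0 + 1)) * Nat.size M)]
  have hM' : M = L + s + N + 1 := rfl
  clear_value c0 lam M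
  have z0 := Nat.zero_le c0
  have z1 := Nat.zero_le L
  have z2 := Nat.zero_le s
  have z3 := Nat.zero_le N
  have z4 := Nat.zero_le lam
  have ke : K (x, y) () ≤ L + 3 * s + 2 * c0 := by
    have a1 := h1 G (x, y) L he hL
    have a2 := h5 G (x, y)
    have a3 := hlamM (K G ())
    linarith
  have kb1 : K x q ≤ L + 3 * s + 3 * c0 := by have := h8 (x, y) q; simp only at this; linarith
  have kb2 : K y q ≤ L + 3 * s + 3 * c0 := by have := h9 (x, y) q; simp only at this; linarith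
  have ks1 : K y (x, q) ≤ L + 3 * s + 3 * c0 := by
    have := h11 (x, y) (x, q); simp only at this; linarith
  have ks2 : K x (y, q) ≤ L + 3 * s + 3 * c0 := by
    have := h10 (x, y) (y, q); simp only at this; linarith
  have kb3 : K (x, y) q ≤ L + 3 * s + 3 * c0 := by
    have := h12 (x, y) q; simp only [id] at this; linarith
  set S := typ G q (K x q, K y (x, q), K y q, K x (y, q)) with hS
  have heS : (x, y) ∈ S := by
    simp only [hS, typ, Finset.mem_filter, List.mem_toFinset]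
    exact ⟨he, le_rfl, le_rfl, le_rfl, le_rfl⟩
  have hS0 : S.card ≠ 0 := Finset.card_ne_zero.2 ⟨_, heS⟩
  set j := Nat.log 2 S.card with hj
  have hj1 : 2 ^ j ≤ S.card := Nat.pow_log_le_self 2 hS0
  have hj2 : S.card < 2 ^ (j + 1) := Nat.lt_pow_succ_log_self (by norm_num) _
  have hSG : ∀ z ∈ S, z ∈ G := fun z hz => List.mem_toFinset.1 (Finset.mem_filter.1 hz).1
  have hjL : j ≤ L := by
    have a1 : S.card ≤ G.toFinset.card :=
      Finset.card_le_card (fun z hz => List.mem_toFinset.2 (hSG z hz))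
    have a2 : 2 ^ j ≤ 2 ^ L := le_trans hj1 (le_trans a1 hL)
    exact (Nat.pow_le_pow_iff_right (by norm_num)).1 a2
  have g4 := size_enc4 (K x q) (K y (x, q)) (K y q) (K x (y, q)) lam (hs _ (by linarith))
    (hs _ (by linarith)) (hs _ (by linarith)) (hs _ (by linarith))
  have kj : K (x, y) q ≤ j + s + 18 * lam + 3 * c0 + 1 := by
    have a1 := h2 G q _ (x, y) (j + 1) heS hj2.le
    have a2 := h6 G (x, y) q
    have a3 := h7 G q
    simp only [id] at a3
    have a4 := hs (K G q) (by linarith)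
    linarith
  obtain ⟨sh1, sh2, sh3, sh4⟩ := typ_shape G q (K x q, K y (x, q), K y q, K x (y, q))
  have hw0 := hH S _ _ _ _ L j hSG hj1 hL sh1 sh2 sh3 sh4
  obtain ⟨γ, hγ⟩ : ∃ γ, γ = L - j + Nat.size L := ⟨_, rfl⟩
  have hγ1 : γ + j = L + Nat.size L := by omega
  rw [← hγ] at hw0
  simp only at hw0
  obtain ⟨w, hw, kw⟩ := h13 (γ, K x q + 1, K y (x, q) + 1, K y q + 1, K x (y, q) + 1) G hw0
  have sL := hlamM L
  have sL' := hs L (by linarith)
  have z5 := Nat.zero_le j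
  have g5 := size_enc5 γ (K x q + 1) (K y (x, q) + 1) (K y q + 1) (K x (y, q) + 1) lam
    (hs _ (by linarith)) (hs _ (by linarith)) (hs _ (by linarith)) (hs _ (by linarith))
    (hs _ (by linarith))
  have g5' := size_enc5 γ (K x q + 1) (K y (x, q) + 1) (K y q + 1) (K x (y, q) + 1)
    (2 * L + 3 * s + 3 * c0 + 1)
    (le_trans (hlamM _) (by linarith)) (le_trans (hlamM _) (by linarith))
    (le_trans (hlamM _) (by linarith)) (le_trans (hlamM _) (by linarith))
    (le_trans (hlamM _) (by linarith))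
  obtain ⟨hw1, hw2, hw3⟩ := hw
  obtain ⟨T, hT, hTc⟩ := hw3 (x', y') he'
  obtain ⟨sz1, sz2⟩ := hw2 T hT
  have sG := hs (K G ()) (by linarith)
  have sG' := hlamM (K G ())
  have kw1 := h14 G w
  have kwA : K w () ≤ 64 * L + 99 * s + 98 * c0 + 32 := by linarith
  have kwB : K w () ≤ s + 34 * lam + 2 * c0 := by linarith
  have sw := hs (K w ()) (by linarith)
  have sw' := hlamM (K w ())
  have kT1 := h15 w T _ hT hw1
  have kT2 := h16 w T
  simp only at kT1 sz1 sz2
  have kTA : K T () ≤ 194 * L + 297 * s + 296 * c0 + 96 := by linarith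
  have kTB : K T () ≤ γ + s + 36 * lam + 4 * c0 := by linarith
  have sT := hs (K T ()) (by linarith)
  have sT' := hlamM (K T ())
  obtain ⟨o1, o2, o3, o4, o5, o6, o7, o8, o9⟩ := h3 x y q
  obtain ⟨o1', o2', -, -, -, -, -, -, -⟩ := h3 y x q
  rw [← hN] at o1 o2 o3 o4 o1' o2'
  have sN := hs N (by linarith)
  have sN' := hlamM N
  have s1a := hs (K (x, q) ()) (by linarith)
  have s2a := hs (K (y, q) ()) (by linarith)
  have s3a := hs (K (x, y, q) ()) (by linarith)
  obtain ⟨m, hm1, hm2, hm3⟩ : ∃ m, N + K (x, y) q ≤ m + L ∧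
      m + L ≤ N + K (x, y) q + s + 2 * lam + 2 * c0 ∧ m ≤ N + K (x, y) q := by
    have a1 : L ≤ N + K (x, y) q + s + 2 * lam + 2 * c0 := by linarith
    refine ⟨N + K (x, y) q - L, ?_, ?_, ?_⟩ <;> omega
  obtain ⟨r, hr1, hr2⟩ := exists_rand (x', y') m
  obtain ⟨u0, u1, u2, u3, u4, u5⟩ := h4 T r x' y' _ _ _ _ sz1 sz2 hTc
  refine ⟨str (T, r), fun e hE => ?_⟩
  have hE' : 1000 * s + 1000 * lam + 1000 * c0 + 1000 ≤ e := le_trans hE0 hE
  generalize str (T, r) = q' at u0 u1 u2 u3 u4 u5 ⊢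
  rw [hr1] at u0
  obtain ⟨p1, -, -, -, p5, -, p7, -, -⟩ := h3 x' y' q'
  obtain ⟨p1', -, -, -, -, -, -, -, -⟩ := h3 y' x' q'
  have kqA : K q' () ≤ N + 583 * L + 894 * s + 892 * c0 + 288 := by linarith
  have sq := hs (K q' ()) (by linarith)
  have sq' := hlamM (K q' ())
  have kxA : K (x', q') () ≤ 3 * N + 1750 * L + 2685 * s + 2681 * c0 + 865 := by linarith
  have kyA : K (y', q') () ≤ 3 * N + 1750 * L + 2685 * s + 2681 * c0 + 865 := by linarith
  have t1a := hs (K (x', q') ()) (by linarith)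
  have t1b := hlamM (K (x', q') ())
  have t2a := hs (K (y', q') ()) (by linarith)
  have t3a := hs (K (x', y', q') ()) (by linarith)
  have f0 : K q' () ≤ N + 3 * s + 59 * lam + 10 * c0 + 1 := by linarith
  have f1 : K (x', q') () ≤ K q' () + K x q + 2 * lam + 2 * c0 + 1 := by linarith
  have f2 : K (y', q') () ≤ K q' () + K y q + 2 * lam + 2 * c0 + 1 := by linarith
  have f3 : K (x', y', q') () ≤ K (x', q') () + K y (x, q) + 2 * lam + 2 * c0 + 1 := by linarith
  have f4 : K (x', y', q') () ≤ K (y', q') () + K x (y, q) + 2 * lam + 2 * c0 + 1 := by linarith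
  have f5 : K (x, y, q) () ≤ K (x', y', q') () + s + 8 * lam + 2 * c0 := by linarith
  have f6 : N + K x q ≤ K (x, q) () + 6 * lam + c0 := by linarith
  have f7 : N + K y q ≤ K (y, q) () + 6 * lam + c0 := by linarith
  have f8 : K (x, q) () + K y (x, q) ≤ K (x, y, q) () + 6 * lam + c0 := by linarith
  have f9 : K (y, q) () + K x (y, q) ≤ K (x, y, q) () + 6 * lam + c0 := by linarith
  clear * - f0 f1 f2 f3 f4 f5 f6 f7 f8 f9 hE' z0 z2 z4
  refine ⟨⟨?_, ?_⟩, ⟨?_, ?_⟩, ⟨?_, ?_⟩, ⟨?_, ?_⟩⟩ <;> linarith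

end Pool.Agent.H56Z.EP
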