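import Mathlib
import Pool.Agent.H56Z.EP.Defs
import Pool.Agent.H56Z.EP.Cover

set_option autoImplicit false
set_option linter.style.haveILetI false

namespace Pool.Agent.H56Z.EP

variable {F : Type} [Field F]

theorem isLine_iff (l : Set (F × F)) : IsLine l ↔
    ∃ a b c : F, (a ≠ 0 ∨ b ≠ 0) ∧ l = {p | a * p.1 + b * p.2 = c} := by
  constructor
  · rintro (⟨k, c, rfl⟩ | ⟨c, rfl⟩)
    · refine ⟨-k, 1, c, Or.inr one_ne_zero, ?_⟩
      ext p
      simp only [Set.mem_ofPred_eq]
      constructor <;> intro h <;> linear_combination h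
    · refine ⟨1, 0, c, Or.inl one_ne_zero, ?_⟩
      ext p
      simp only [Set.mem_ofPred_eq]
      constructor <;> intro h <;> linear_combination h
  · rintro ⟨a, b, c, hab, rfl⟩
    by_cases hb : b = 0
    · have ha : a ≠ 0 := hab.resolve_right (fun h => h hb)
      refine Or.inr ⟨c / a, ?_⟩
      ext p
      simp only [Set.mem_ofPred_eq, hb]
      rw [eq_div_iff ha]
      constructor <;> intro h <;> linear_combination h
    · refine Or.inl ⟨-a / b, c / b, ?_⟩
      ext p
      simp only [Set.mem_ofPred_eq]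
      constructor
      · intro h
        field_simp
        linear_combination h
      · intro h
        rw [h]
        field_simp
        ring

/-- a collineation -/
def Col (b : Equiv.Perm (F × F)) : Prop :=
  (∀ l, IsLine l → IsLine (b '' l)) ∧ ∀ l, IsLine l → IsLine (b.symm '' l)

theorem Col.trans {b b' : Equiv.Perm (F × F)} (h : Col b) (h' : Col b') : Col (b.trans b') := by
  refine ⟨fun l hl => ?_, fun l hl => ?_⟩
  · have := h'.1 _ (h.1 l hl)
    rwa [Set.image_image] at this
  · have := h.2 _ (h'.2 l hl)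
    rwa [Set.image_image] at this

theorem Col.symm {b : Equiv.Perm (F × F)} (h : Col b) : Col b.symm := ⟨h.2, h.1⟩

/-- translation followed by a shear -/
def shear (u v k : F) : Equiv.Perm (F × F) where
  toFun p := (p.1 - u, p.2 - v - k * (p.1 - u))
  invFun p := (p.1 + u, p.2 + v + k * p.1)
  left_inv p := by ext <;> simp <;> ring
  right_inv p := by ext <;> simp <;> ring

theorem col_shear (u v k : F) : Col (shear u v k) := by
  refine ⟨fun l hl => ?_, fun l hl => ?_⟩
  · obtain ⟨a, b, c, hab, rfl⟩ := (isLine_iff l).1 hl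
    refine (isLine_iff _).2 ⟨a + b * k, b, c - a * u - b * v, ?_, ?_⟩
    · by_cases hb : b = 0
      · left; simpa [hb] using hab
      · exact Or.inr hb
    · ext p
      rw [Equiv.image_eq_preimage_symm]
      simp only [shear, Equiv.coe_fn_symm_mk, Set.mem_preimage, Set.mem_ofPred_eq]
      constructor <;> intro h <;> linear_combination h
  · obtain ⟨a, b, c, hab, rfl⟩ := (isLine_iff l).1 hl
    refine (isLine_iff _).2 ⟨a - b * k, b, c + a * u + b * v - b * k * u, ?_, ?_⟩
    · by_cases hb : b = 0
      · left; simpa [hb] using hab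
      · exact Or.inr hb
    · ext p
      rw [Equiv.image_eq_preimage_symm, Equiv.symm_symm]
      simp only [shear, Equiv.coe_fn_mk, Set.mem_preimage, Set.mem_ofPred_eq]
      constructor <;> intro h <;> linear_combination h

theorem col_swap : Col (Equiv.prodComm F F) := by
  have h : ∀ l : Set (F × F), IsLine l → IsLine (Equiv.prodComm F F '' l) := by
    intro l hl
    obtain ⟨a, b, c, hab, rfl⟩ := (isLine_iff l).1 hl
    refine (isLine_iff _).2 ⟨b, a, c, hab.symm, ?_⟩
    ext p
    rw [Equiv.image_eq_preimage_symm]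
    simp only [Equiv.prodComm_symm, Equiv.coe_prodComm, Set.mem_preimage, Set.mem_ofPred_eq,
      Prod.fst_swap, Prod.snd_swap]
    constructor <;> intro h <;> linear_combination h
  exact ⟨h, h⟩

theorem to_standard (l : Set (F × F)) (p : F × F) (hl : IsLine l) (hp : p ∈ l) :
    ∃ b : Equiv.Perm (F × F), Col b ∧ b '' l = {z | z.2 = 0} ∧ b p = (0, 0) := by
  rcases hl with ⟨k, c, rfl⟩ | ⟨c, rfl⟩
  · refine ⟨shear p.1 p.2 k, col_shear _ _ _, ?_, by simp [shear]⟩
    ext z
    rw [Equiv.image_eq_preimage_symm]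
    simp only [shear, Equiv.coe_fn_symm_mk, Set.mem_preimage, Set.mem_ofPred_eq] at hp ⊢
    constructor
    · intro h; linear_combination h - hp
    · intro h; linear_combination h + hp
  · refine ⟨(Equiv.prodComm F F).trans (shear p.2 p.1 0), col_swap.trans (col_shear _ _ _), ?_,
      by simp [shear]⟩
    ext z
    rw [Equiv.image_eq_preimage_symm]
    simp only [shear, Equiv.symm_trans_apply, Equiv.coe_fn_symm_mk, Set.mem_preimage,
      Set.mem_ofPred_eq, Equiv.prodComm_symm, Equiv.prodComm_apply, Prod.fst_swap] at hp ⊢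
    constructor
    · intro h; linear_combination h - hp
    · intro h; linear_combination h + hp

theorem homog_plane [Finite F] (cl : Set (F × F) → List Bool) (cp : F × F → List Bool)
    (h1 : Set.InjOn cl {l | IsLine l}) (h2 : Function.Injective cp)
    (G : List (List Bool × List Bool)) (hG : ∀ x y, (x, y) ∈ G ↔ IsEdge cl cp x y) : Homog G := by
  refine homog_of_trans (X := {l : Set (F × F) // IsLine l}) (Y := F × F) (fun l p => p ∈ l.1)
    (fun l => cl l.1) cp (fun a b h => Subtype.ext (h1 a.2 b.2 h)) h2 G ?_ ?_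
  · intro u v
    rw [hG]
    constructor
    · rintro ⟨l, p, hl, hp, rfl, rfl⟩; exact ⟨⟨l, hl⟩, p, hp, rfl, rfl⟩
    · rintro ⟨l, p, hp, rfl, rfl⟩; exact ⟨l.1, p, l.2, hp, rfl, rfl⟩
  · intro l p l' p' hp hp'
    obtain ⟨b, hb, e1, e2⟩ := to_standard l.1 p l.2 hp
    obtain ⟨b', hb', e1', e2'⟩ := to_standard l'.1 p' l'.2 hp'
    have hc : Col (b.trans b'.symm) := hb.trans hb'.symm
    let a : Equiv.Perm {l : Set (F × F) // IsLine l} :=
      { toFun := fun m => ⟨(b.trans b'.symm) '' m.1, hc.1 _ m.2⟩
        invFun := fun m => ⟨(b.trans b'.symm).symm '' m.1, hc.2 _ m.2⟩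
        left_inv := fun m => Subtype.ext (Equiv.symm_image_image _ _)
        right_inv := fun m => Subtype.ext (Equiv.image_symm_image _ _) }
    refine ⟨a, b.trans b'.symm, ?_, ?_, ?_⟩
    · intro m z
      exact ((b.trans b'.symm).injective.mem_set_image).symm
    · apply Subtype.ext
      show (b.trans b'.symm) '' l.1 = l'.1
      rw [Equiv.coe_trans, Set.image_comp, e1, ← e1', Equiv.symm_image_image]
    · rw [Equiv.trans_apply, e2, ← e2', Equiv.symm_apply_apply]

theorem card_edges [Fintype F] (cl : Set (F × F) → List Bool) (cp : F × F → List Bool)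
    (G : List (List Bool × List Bool)) (hG : ∀ x y, (x, y) ∈ G ↔ IsEdge cl cp x y) :
    G.toFinset.card ≤ 2 * Fintype.card F ^ 3 := by
  classical
  let f : (F × F × F) ⊕ (F × F × F) → List Bool × List Bool := fun z =>
    match z with
    | Sum.inl (k, c, a) => (cl {p | p.2 = k * p.1 + c}, cp (a, k * a + c))
    | Sum.inr (c, b, _) => (cl {p | p.1 = c}, cp (c, b))
  have h : G.toFinset ⊆ Finset.univ.image f := by
    rintro ⟨x, y⟩ hz
    obtain ⟨l, p, hl, hp, rfl, rfl⟩ := (hG x y).1 (List.mem_toFinset.1 hz)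
    rcases hl with ⟨k, c, rfl⟩ | ⟨c, rfl⟩
    · refine Finset.mem_image.2 ⟨Sum.inl (k, c, p.1), Finset.mem_univ _, ?_⟩
      have hp' : p.2 = k * p.1 + c := hp
      simp only [f, ← hp']
    · refine Finset.mem_image.2 ⟨Sum.inr (c, p.2, 0), Finset.mem_univ _, ?_⟩
      have hp' : p.1 = c := hp
      simp only [f, ← hp']
  refine le_trans (Finset.card_le_card h) (le_trans Finset.card_image_le ?_)
  simp only [Finset.card_univ, Fintype.card_sum, Fintype.card_prod]
  exact le_of_eq (by ring)

end Pool.Agent.H56Z.EP
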