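import Mathlib
import Pool.Agent.H56Z.EP.Main
import Pool.Agent.H56Z.EP.Plane
import Pool.Agent.Helper760.EP.J4305

set_option autoImplicit false

namespace Pool.Agent.H56Z.EP

open Encodable
open Pool.Agent.Helper760.Kolm Pool.Agent.Helper760.EP

theorem K_inv {α : Type} [Primcodable α] (enc : α → List Bool) (henc : Computable enc)
    (hinj : Function.Injective enc) : ∃ c : ℕ, ∀ w : α, K w () ≤ K (enc w) () + c := by
  let g : List Bool →. α := fun s => Nat.rfindOpt (fun t =>
      (decode (α := α) t).bind fun w => if enc w = s then some w else none)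
  have hg : Partrec g := by
    refine Partrec.rfindOpt ?_
    refine Computable.option_bind (Computable.decode.comp Computable.snd) ?_
    have hcond : Computable (fun y : ((List Bool × ℕ) × α) => decide (enc y.2 = y.1.1)) := by
      have h1 : Primrec (fun z : List Bool × List Bool => decide (z.1 = z.2)) :=
        (Primrec.eq (α := List Bool)).decide
      exact h1.to_comp.comp (Computable.pair (henc.comp Computable.snd)
        (Computable.fst.comp Computable.fst))
    refine (Computable.cond hcond (Computable.option_some.comp Computable.snd)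
      (Computable.const none)).to₂.of_eq ?_
    rintro ⟨y, w⟩
    by_cases h : enc w = y.1 <;> simp [h]
  obtain ⟨c, hc⟩ := J4305.auxLL_part (β := Unit) g hg
  refine ⟨c, fun w => hc (enc w) w () ?_⟩
  have hex : ∃ n a, a ∈ ((decode (α := α) n).bind fun w' =>
      if enc w' = enc w then some w' else none : Option α) :=
    ⟨encode w, w, by simp⟩
  obtain ⟨a, ha⟩ := Part.dom_iff_mem.1 (Nat.rfindOpt_dom.2 hex)
  obtain ⟨n, hn⟩ := Nat.rfindOpt_spec ha
  have hn' : ((decode (α := α) n).bind fun w' =>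
      if enc w' = enc w then some w' else none) = some a := hn
  simp only [Option.bind_eq_some_iff] at hn'
  obtain ⟨w', _, hw'⟩ := hn'
  split_ifs at hw' with heq
  cases hw'
  obtain rfl : a = w := hinj heq
  exact ha

theorem core0 : ∃ C : ℕ, ∀ (G : List (List Bool × List Bool)) (L s : ℕ) (x y x' y' : List Bool),
    Homog G → G.toFinset.card ≤ 2 ^ L → K G () ≤ s → (x, y) ∈ G → (x', y') ∈ G →
    L ≤ K (x, y) () + s → L ≤ K (x', y') () + s →
    ∀ e : ℕ, C * (s + Nat.size (L + s + 1) + 1) ≤ e →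
      K x' () ≤ K x () + e ∧ K y' () ≤ K y () + e ∧ K (x', y') () ≤ K (x, y) () + e := by
  obtain ⟨C, hC⟩ := core
  obtain ⟨c1, h1⟩ := K_map (fun z : List Bool × List Bool => z.1) Computable.fst
  obtain ⟨c2, h2⟩ := K_map (fun z : List Bool => (z, ([] : List Bool)))
    (Computable.pair Computable.id (Computable.const []))
  obtain ⟨c3, h3⟩ := K_map (fun b : List Bool × List Bool × List Bool => (b.1, b.2.1))
    (Computable.pair Computable.fst (Computable.fst.comp Computable.snd))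
  obtain ⟨c4, h4⟩ := K_map (fun b : List Bool × List Bool => (b.1, b.2, ([] : List Bool)))
    (Computable.pair Computable.fst (Computable.pair Computable.snd (Computable.const [])))
  set c5 := K ([] : List Bool) () with hc5
  refine ⟨C * (Nat.size (c5 + 1) + 1) + (c1 + c2 + c3 + c4), ?_⟩
  intro G L s x y x' y' hH hL hG he he' hr hr' e hE
  obtain ⟨q', hq'⟩ := hC G L s x y x' y' [] hH hL hG he he' hr hr'
  have a1 : Nat.size (L + s + c5 + 1) ≤ Nat.size (c5 + 1) + Nat.size (L + s + 1) := by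
    refine le_trans (size_mono ?_) (size_mul_le _ _)
    nlinarith [Nat.zero_le (c5 * L), Nat.zero_le (c5 * s)]
  have a2 : C * (s + Nat.size (L + s + c5 + 1) + 1) + (c1 + c2 + c3 + c4) ≤ e := by
    refine le_trans ?_ hE
    have b1 : C * (s + Nat.size (L + s + c5 + 1) + 1) ≤
        C * (Nat.size (c5 + 1) + 1) * (s + Nat.size (L + s + 1) + 1) := by
      rw [mul_assoc]
      refine Nat.mul_le_mul_left _ ?_
      nlinarith [Nat.zero_le (Nat.size (c5 + 1) * s),
        Nat.zero_le (Nat.size (c5 + 1) * Nat.size (L + s + 1))]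
    have b2 : c1 + c2 + c3 + c4 ≤ (c1 + c2 + c3 + c4) * (s + Nat.size (L + s + 1) + 1) :=
      Nat.le_mul_of_pos_right _ (by omega)
    rw [add_mul]
    omega
  obtain ⟨-, ⟨p1, -⟩, ⟨p2, -⟩, ⟨p3, -⟩⟩ := hq' _ le_rfl
  rw [← hc5] at p1 p2 p3
  have e1 := h1 (x', q')
  have e2 := h1 (y', q')
  have e3 := h2 x
  have e4 := h2 y
  have e5 := h3 (x', y', q')
  have e6 := h4 (x, y)
  simp only at e1 e2 e3 e4 e5 e6
  refine ⟨?_, ?_, ?_⟩ <;> omega

theorem one_le_logb (n : ℕ) (hn : 2 ≤ n) : (1 : ℝ) ≤ Real.logb 2 n := by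
  rw [Real.le_logb_iff_rpow_le (by norm_num) (by exact_mod_cast (by omega : 0 < n))]
  rw [Real.rpow_one]
  exact_mod_cast hn

theorem size_le_logb (n : ℕ) (hn : 2 ≤ n) : (Nat.size n : ℝ) ≤ 2 * Real.logb 2 n := by
  have h0 : 0 < Nat.size n := Nat.size_pos.2 (by omega)
  have h1 : 2 ^ (Nat.size n - 1) ≤ n := Nat.lt_size.1 (by omega)
  have h2 : ((Nat.size n - 1 : ℕ) : ℝ) ≤ Real.logb 2 n := by
    rw [Real.le_logb_iff_rpow_le (by norm_num) (by exact_mod_cast (by omega : 0 < n))]
    rw [Real.rpow_natCast]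
    exact_mod_cast h1
  have h3 := one_le_logb n hn
  rw [Nat.cast_sub (by omega)] at h2
  push_cast at h2
  linarith

theorem logb_le_self (n : ℕ) (hn : 2 ≤ n) : Real.logb 2 n ≤ n := by
  rw [Real.logb_le_iff_le_rpow (by norm_num) (by exact_mod_cast (by omega : 0 < n)),
    Real.rpow_natCast]
  exact_mod_cast (Nat.lt_two_pow_self).le

theorem abs_of_ap {a b e : ℕ} {δ : ℝ} (h1 : a ≤ b + e) (h2 : b ≤ a + e) (h : (e : ℝ) ≤ δ) :
    |(((a : ℤ) : ℝ)) - ((b : ℤ) : ℝ)| ≤ δ := by
  have h1' : (a : ℝ) ≤ b + e := by exact_mod_cast h1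
  have h2' : (b : ℝ) ≤ a + e := by exact_mod_cast h2
  push_cast
  rw [abs_le]
  constructor <;> linarith

theorem same_profile (U : List Bool →. List Bool) (pr : List Bool → List Bool → List Bool)
    (enc : List (List Bool × List Bool) → List Bool) (hU : OptPlain U) (hpr : PairCode pr)
    (henc : Computable enc) (hinj : Function.Injective enc) (k : ℝ) :
    ∃ d : ℝ, ∀ n : ℕ, 2 ≤ n → ∀ (F : Type) [Field F] [Fintype F]
      (cl : Set (F × F) → List Bool) (cp : F × F → List Bool), SimplePlane U enc k n F cl cp →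
      ∀ x y x' y' : List Bool, RandomEdge U pr k n cl cp x y → RandomEdge U pr k n cl cp x' y' →
      ∀ q : List Bool, ∃ q' : List Bool, ∀ i : Fin 7,
        |(prof U pr x' y' q' i : ℝ) - (prof U pr x y q i : ℝ)| ≤
          d * Real.logb 2 ((n : ℝ) + CU U q) := by
  obtain ⟨C, hC⟩ := core
  obtain ⟨C0, hC0⟩ := core0
  obtain ⟨c1, h1⟩ := J4305.plain_K U hU
  obtain ⟨c3, h3⟩ := J4305.pair_K pr hpr
  obtain ⟨c4, h4⟩ := K_inv enc henc hinj
  set k0 : ℕ := ⌈k⌉₊ with hk0
  set A : ℕ := 20 + 7 * k0 + 2 * c1 + c3 + c4 with hA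
  refine ⟨((C + C0) * (4 * k0 + 10 + c1 + c3 + c4 + Nat.size A) + 2 * c1 + 2 * c3 : ℕ), ?_⟩
  intro n hn F _ _ cl cp hS x y x' y' he he' q
  obtain ⟨hF, hcl, hcp, G, hG, hGk⟩ := hS
  have t1 := one_le_logb n hn
  have t2 := logb_le_self n hn
  have hk : k ≤ k0 := Nat.le_ceil k
  set t := Real.logb 2 n with ht
  set κ : ℕ := ⌈(k0 : ℝ) * t⌉₊ with hκ
  have hκ1 : k * t ≤ κ := le_trans (by gcongr) (Nat.le_ceil _)
  have hκ2 : (κ : ℝ) ≤ k0 * t + 1 := (Nat.ceil_lt_add_one (by positivity)).le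
  have hκ3 : κ ≤ k0 * n + 1 := by
    have : (κ : ℝ) ≤ k0 * n + 1 := le_trans hκ2 (by gcongr)
    exact_mod_cast this
  have hcard : Fintype.card F ≤ 2 ^ (n + κ) := by
    have a0 : (0 : ℝ) < Fintype.card F := by exact_mod_cast Fintype.card_pos
    have a1 : Real.logb 2 (Fintype.card F) ≤ ((n + κ : ℕ) : ℝ) := by
      have := (abs_le.1 hF).2
      push_cast
      linarith
    rw [Real.logb_le_iff_le_rpow (by norm_num) a0, Real.rpow_natCast] at a1
    exact_mod_cast a1
  have hL : G.toFinset.card ≤ 2 ^ (3 * n + 3 * κ + 1) := by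
    refine le_trans (card_edges cl cp G hG) ?_
    calc 2 * Fintype.card F ^ 3 ≤ 2 * (2 ^ (n + κ)) ^ 3 := by gcongr
      _ = 2 ^ (3 * n + 3 * κ + 1) := by rw [← pow_mul]; ring
  have hH := homog_plane cl cp hcl hcp G hG
  set s := 4 * κ + 1 + c1 + c3 + c4 with hs
  have hGs : K G () ≤ s := by
    have a1 := h4 G
    have a2 := (h1 (enc G)).2
    have a3 : CU U (enc G) ≤ κ := by exact_mod_cast le_trans hGk hκ1
    omega
  have hrand : ∀ x y, RandomEdge U pr k n cl cp x y → 3 * n + 3 * κ + 1 ≤ K (x, y) () + s := by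
    intro x y h
    have a1 := (h1 (pr x y)).1
    have a2 := (h3 x y).1.1
    have a3 : 3 * n ≤ CU U (pr x y) + κ := by
      have := h.2
      have b : (3 * n : ℝ) ≤ CU U (pr x y) + κ := by linarith
      exact_mod_cast b
    omega
  have m1 := (hG x y).2 he.1
  have m2 := (hG x' y').2 he'.1
  obtain ⟨q', hq'⟩ := hC G _ s x y x' y' q hH hL hGs m1 m2 (hrand _ _ he) (hrand _ _ he')
  refine ⟨q', ?_⟩
  set N := CU U q with hN
  have hsz : Nat.size (3 * n + 3 * κ + 1 + s + K q () + 1) ≤ Nat.size A + Nat.size (n + N) := by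
    refine le_trans (size_mono ?_) (size_mul_le _ _)
    have a1 := (h1 q).2
    rw [← hN] at a1
    have a2 : 2 * c1 + c3 + c4 ≤ (2 * c1 + c3 + c4) * (n + N) :=
      Nat.le_mul_of_pos_right _ (by omega)
    have a3 : A * (n + N) = 20 * n + 20 * N + 7 * (k0 * n) + 7 * (k0 * N) +
        (2 * c1 + c3 + c4) * (n + N) := by rw [hA]; ring
    omega
  set e := (C + C0) * (s + (Nat.size A + Nat.size (n + N)) + 1) with he0
  have e1 : C * (s + Nat.size (3 * n + 3 * κ + 1 + s + K q () + 1) + 1) ≤ e :=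
    Nat.mul_le_mul (by omega) (by omega)
  have e2 : C0 * (s + Nat.size (3 * n + 3 * κ + 1 + s + 1) + 1) ≤ e := by
    refine Nat.mul_le_mul (by omega) ?_
    have := size_mono (a := 3 * n + 3 * κ + 1 + s + 1) (b := 3 * n + 3 * κ + 1 + s + K q () + 1)
      (by omega)
    omega
  obtain ⟨⟨p1, p2⟩, ⟨p3, p4⟩, ⟨p5, p6⟩, ⟨p7, p8⟩⟩ := hq' e e1
  obtain ⟨r1, r2, r3⟩ := hC0 G _ s x y x' y' hH hL hGs m1 m2 (hrand _ _ he) (hrand _ _ he') e e2
  obtain ⟨r4, r5, r6⟩ := hC0 G _ s x' y' x y hH hL hGs m2 m1 (hrand _ _ he') (hrand _ _ he) e e2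
  have hT1 := one_le_logb (n + N) (by omega)
  have hT2 := size_le_logb (n + N) (by omega)
  have hT3 : t ≤ Real.logb 2 ((n + N : ℕ) : ℝ) := by
    refine Real.logb_le_logb_of_le (by norm_num) (by exact_mod_cast (by omega : 0 < n)) ?_
    exact_mod_cast Nat.le_add_right n N
  push_cast at hT1 hT2 hT3
  set T := Real.logb 2 ((n : ℝ) + N) with hT
  have hδ : ((e + 2 * c1 + 2 * c3 : ℕ) : ℝ) ≤
      (((C + C0) * (4 * k0 + 10 + c1 + c3 + c4 + Nat.size A) + 2 * c1 + 2 * c3 : ℕ) : ℝ) * T := by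
    have b1 : ((s + (Nat.size A + Nat.size (n + N)) + 1 : ℕ) : ℝ) ≤
        (4 * k0 + 10 + c1 + c3 + c4 + Nat.size A) * T := by
      rw [hs]
      push_cast
      have b2 : (k0 : ℝ) * t ≤ k0 * T := by gcongr
      have b3 : ((c1 : ℝ) + c3 + c4 + Nat.size A) ≤ (c1 + c3 + c4 + Nat.size A) * T :=
        le_mul_of_one_le_right (by positivity) hT1
      nlinarith
    have b4 : ((2 * c1 + 2 * c3 : ℕ) : ℝ) ≤ (2 * c1 + 2 * c3 : ℕ) * T :=
      le_mul_of_one_le_right (by positivity) hT1
    have b5 : (e : ℝ) ≤ (C + C0) * ((4 * k0 + 10 + c1 + c3 + c4 + Nat.size A) * T) := by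
      rw [he0, Nat.cast_mul, Nat.cast_add C C0]
      gcongr
    push_cast at b4 b5 ⊢
    nlinarith
  have u := fun s => (h1 s).1
  have u' := fun s => (h1 s).2
  intro i
  fin_cases i
  · refine abs_of_ap (e := e + 2 * c1 + 2 * c3) ?_ ?_ hδ
    · have := u x'; have := u' x; omega
    · have := u x; have := u' x'; omega
  · refine abs_of_ap (e := e + 2 * c1 + 2 * c3) ?_ ?_ hδ
    · have := u y'; have := u' y; omega
    · have := u y; have := u' y'; omega
  · refine abs_of_ap (e := e + 2 * c1 + 2 * c3) ?_ ?_ hδ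
    · have := u q'; have := u' q; omega
    · have := u q; have := u' q'; omega
  · refine abs_of_ap (e := e + 2 * c1 + 2 * c3) ?_ ?_ hδ
    · have := u (pr x' y'); have := u' (pr x y)
      have := (h3 x' y').1.1; have := (h3 x y).1.2; omega
    · have := u (pr x y); have := u' (pr x' y')
      have := (h3 x' y').1.2; have := (h3 x y).1.1; omega
  · refine abs_of_ap (e := e + 2 * c1 + 2 * c3) ?_ ?_ hδ
    · have := u (pr x' q'); have := u' (pr x q)
      have := (h3 x' q').1.1; have := (h3 x q).1.2; omega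
    · have := u (pr x q); have := u' (pr x' q')
      have := (h3 x' q').1.2; have := (h3 x q).1.1; omega
  · refine abs_of_ap (e := e + 2 * c1 + 2 * c3) ?_ ?_ hδ
    · have := u (pr y' q'); have := u' (pr y q)
      have := (h3 y' q').1.1; have := (h3 y q).1.2; omega
    · have := u (pr y q); have := u' (pr y' q')
      have := (h3 y' q').1.2; have := (h3 y q).1.1; omega
  · refine abs_of_ap (e := e + 2 * c1 + 2 * c3) ?_ ?_ hδ
    · have := u (pr x' (pr y' q')); have := u' (pr x (pr y q))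
      have := ((h3 x' y').2.2 q').1; have := ((h3 x y).2.2 q).2; omega
    · have := u (pr x (pr y q)); have := u' (pr x' (pr y' q'))
      have := ((h3 x' y').2.2 q').2; have := ((h3 x y).2.2 q).1; omega

end Pool.Agent.H56Z.EP
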