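import Mathlib
import Pool.Agent.H56Z.EP.Final

set_option autoImplicit false

namespace Pool.Agent.H56Z.EP

open Encodable
open Pool.Agent.Helper760.Kolm Pool.Agent.Helper760.EP

/-- parametrisation of the lines -/
def ln {F : Type} [Field F] : (F × F) ⊕ F → Set (F × F)
  | Sum.inl z => {p | p.2 = z.1 * p.1 + z.2}
  | Sum.inr c => {p | p.1 = c}

theorem ln_inj {F : Type} [Field F] : Function.Injective (ln (F := F)) := by
  rintro (⟨k, c⟩ | c) (⟨k', c'⟩ | c') h
  · have h0 : ((0, c) : F × F) ∈ ln (Sum.inl (k', c')) := by rw [← h]; simp [ln]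
    have h1 : ((1, k + c) : F × F) ∈ ln (Sum.inl (k', c')) := by rw [← h]; simp [ln]
    simp only [ln, Set.mem_ofPred_eq, mul_zero, zero_add, mul_one] at h0 h1
    have : k = k' := by linear_combination h1 - h0
    rw [this, h0]
  · have h0 : ((c' + 1, k * (c' + 1) + c) : F × F) ∈ ln (Sum.inr c') := by rw [← h]; simp [ln]
    simp [ln] at h0
  · have h0 : ((c + 1, k' * (c + 1) + c') : F × F) ∈ ln (Sum.inr c) := by rw [h]; simp [ln]
    simp [ln] at h0
  · have h0 : ((c, 0) : F × F) ∈ ln (Sum.inr c') := by rw [← h]; simp [ln]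
    simp only [ln, Set.mem_ofPred_eq] at h0
    rw [h0]

theorem isLine_ln {F : Type} [Field F] (l : Set (F × F)) : IsLine l ↔ ∃ z, ln z = l := by
  constructor
  · rintro (⟨k, c, rfl⟩ | ⟨c, rfl⟩)
    · exact ⟨Sum.inl (k, c), rfl⟩
    · exact ⟨Sum.inr c, rfl⟩
  · rintro ⟨(⟨k, c⟩ | c), rfl⟩
    · exact Or.inl ⟨k, c, rfl⟩
    · exact Or.inr ⟨c, rfl⟩

theorem card_edges_ge {F : Type} [Field F] [Fintype F] (cl : Set (F × F) → List Bool)
    (cp : F × F → List Bool) (h1 : Set.InjOn cl {l | IsLine l}) (h2 : Function.Injective cp)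
    (G : List (List Bool × List Bool)) (hG : ∀ x y, (x, y) ∈ G ↔ IsEdge cl cp x y) :
    Fintype.card F ^ 3 ≤ G.toFinset.card := by
  classical
  let f : F × F × F → List Bool × List Bool := fun z =>
    (cl (ln (Sum.inl (z.1, z.2.1))), cp (z.2.2, z.1 * z.2.2 + z.2.1))
  have hf : Function.Injective f := by
    rintro ⟨k, c, a⟩ ⟨k', c', a'⟩ h
    have a1 := h1 ((isLine_ln _).2 ⟨_, rfl⟩) ((isLine_ln _).2 ⟨_, rfl⟩) (congrArg Prod.fst h)
    have a2 := h2 (congrArg Prod.snd h)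
    have a3 := ln_inj a1
    simp only [Sum.inl.injEq, Prod.mk.injEq] at a2 a3
    rw [a3.1, a3.2, a2.1]
  have h : Finset.univ.image f ⊆ G.toFinset := by
    intro z hz
    obtain ⟨w, _, rfl⟩ := Finset.mem_image.1 hz
    refine List.mem_toFinset.2 ((hG _ _).2 ⟨_, _, (isLine_ln _).2 ⟨_, rfl⟩, ?_, rfl, rfl⟩)
    simp [ln]
  have := Finset.card_le_card h
  rw [Finset.card_image_of_injective _ hf] at this
  simp only [Finset.card_univ, Fintype.card_prod] at this
  calc Fintype.card F ^ 3 = Fintype.card F * (Fintype.card F * Fintype.card F) := by ring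
    _ ≤ _ := this

/-- the list of all edges over the prime field -/
def edges (p : ℕ) : List (List Bool × List Bool) :=
  (List.range p).flatMap fun k => (List.range p).flatMap fun c => (List.range p).flatMap fun a =>
    [(str ((0, k, c) : ℕ × ℕ × ℕ), str ((a, (k * a + c) % p) : ℕ × ℕ)),
      (str ((1, c, 0) : ℕ × ℕ × ℕ), str ((c, a) : ℕ × ℕ))]

theorem primrec_edges : Primrec edges := by
  unfold edges
  refine Primrec.list_flatMap Primrec.list_range ?_
  refine Primrec.list_flatMap (Primrec.list_range.comp Primrec.fst) ?_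
  refine Primrec.list_flatMap (Primrec.list_range.comp (Primrec.fst.comp Primrec.fst)) ?_
  have hp : Primrec (fun x : ((ℕ × ℕ) × ℕ) × ℕ => x.1.1.1) :=
    Primrec.fst.comp (Primrec.fst.comp Primrec.fst)
  have hk : Primrec (fun x : ((ℕ × ℕ) × ℕ) × ℕ => x.1.1.2) :=
    Primrec.snd.comp (Primrec.fst.comp Primrec.fst)
  have hc : Primrec (fun x : ((ℕ × ℕ) × ℕ) × ℕ => x.1.2) := Primrec.snd.comp Primrec.fst
  have ha : Primrec (fun x : ((ℕ × ℕ) × ℕ) × ℕ => x.2) := Primrec.snd
  have e1 := primrec_str.comp (Primrec.pair (Primrec.const (0 : ℕ)) (Primrec.pair hk hc))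
  have e2 := primrec_str.comp (Primrec.pair ha
    (Primrec.nat_mod.comp (Primrec.nat_add.comp (Primrec.nat_mul.comp hk ha) hc) hp))
  have e3 := primrec_str.comp (Primrec.pair (Primrec.const (1 : ℕ))
    (Primrec.pair hc (Primrec.const (0 : ℕ))))
  have e4 := primrec_str.comp (Primrec.pair hc ha)
  exact Primrec.list_cons.comp (Primrec.pair e1 e2)
    (Primrec.list_cons.comp (Primrec.pair e3 e4) (Primrec.const []))

/-- codes of lines over the prime field -/
def lcode (p : ℕ) : (ZMod p × ZMod p) ⊕ ZMod p → List Bool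
  | Sum.inl z => str ((0, z.1.val, z.2.val) : ℕ × ℕ × ℕ)
  | Sum.inr c => str ((1, c.val, 0) : ℕ × ℕ × ℕ)

theorem prime_plane (p : ℕ) [Fact p.Prime] :
    ∃ (cl : Set (ZMod p × ZMod p) → List Bool) (cp : ZMod p × ZMod p → List Bool),
      Set.InjOn cl {l | IsLine l} ∧ Function.Injective cp ∧
      ∀ x y, (x, y) ∈ edges p ↔ IsEdge cl cp x y := by
  have hv : Function.Injective (ZMod.val : ZMod p → ℕ) := ZMod.val_injective p
  have hcl : ∀ z, Function.extend ln (lcode p) (fun _ => []) (ln z) = lcode p z :=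
    fun z => ln_inj.extend_apply _ _ z
  refine ⟨Function.extend ln (lcode p) (fun _ => []),
    fun z => str ((z.1.val, z.2.val) : ℕ × ℕ), ?_, ?_, ?_⟩
  · intro l hl l' hl' h
    obtain ⟨z, rfl⟩ := (isLine_ln l).1 hl
    obtain ⟨z', rfl⟩ := (isLine_ln l').1 hl'
    rw [hcl, hcl] at h
    rcases z with ⟨k, c⟩ | c <;> rcases z' with ⟨k', c'⟩ | c' <;>
      have h2 := str_inj h <;> simp only [Prod.mk.injEq] at h2
    · rw [hv h2.2.1, hv h2.2.2]
    · omega
    · omega
    · rw [hv h2.2.1]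
  · rintro ⟨a, b⟩ ⟨a', b'⟩ h
    have h2 := str_inj h
    simp only [Prod.mk.injEq] at h2
    rw [hv h2.1, hv h2.2]
  · intro x y
    simp only [edges, List.mem_flatMap, List.mem_range, List.mem_cons, List.not_mem_nil, or_false,
      Prod.mk.injEq]
    constructor
    · rintro ⟨k, hk, c, hc, a, ha, (⟨rfl, rfl⟩ | ⟨rfl, rfl⟩)⟩
      · refine ⟨ln (Sum.inl ((k : ZMod p), (c : ZMod p))), ((a : ZMod p), (k : ZMod p) * a + c),
          (isLine_ln _).2 ⟨_, rfl⟩, by simp [ln], ?_, ?_⟩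
        · rw [hcl]; simp only [lcode, ZMod.val_cast_of_lt hk, ZMod.val_cast_of_lt hc]
        · have : ((k : ZMod p) * a + c).val = (k * a + c) % p := by
            rw [← ZMod.val_natCast]; push_cast; rfl
          simp only [ZMod.val_cast_of_lt ha, this]
      · refine ⟨ln (Sum.inr (c : ZMod p)), ((c : ZMod p), (a : ZMod p)),
          (isLine_ln _).2 ⟨_, rfl⟩, by simp [ln], ?_, ?_⟩
        · rw [hcl]; simp only [lcode, ZMod.val_cast_of_lt hc]
        · simp only [ZMod.val_cast_of_lt ha, ZMod.val_cast_of_lt hc]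
    · rintro ⟨l, ⟨a, b⟩, hl, hp, rfl, rfl⟩
      obtain ⟨(⟨k, c⟩ | c), rfl⟩ := (isLine_ln l).1 hl
      · refine ⟨k.val, ZMod.val_lt k, c.val, ZMod.val_lt c, a.val, ZMod.val_lt a, Or.inl ⟨?_, ?_⟩⟩
        · rw [hcl]; rfl
        · have hb : b = k * a + c := hp
          have : b.val = (k.val * a.val + c.val) % p := by
            rw [← ZMod.val_natCast, hb]; push_cast; simp
          simp only [this]
      · have ha : a = c := hp
        refine ⟨0, (Fact.out : p.Prime).pos, c.val, ZMod.val_lt c, b.val, ZMod.val_lt b,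
          Or.inr ⟨?_, ?_⟩⟩
        · rw [hcl]; rfl
        · simp only [ha]

theorem simple_prime : ∃ c : ℕ, ∀ n : ℕ, ∃ p : ℕ, p.Prime ∧ 2 ^ n < p ∧ p ≤ 2 ^ (n + 1) ∧
    K (edges p) () ≤ 2 * Nat.size n + c := by
  let P : ℕ × Unit × ℕ → Prop := fun x => 2 ^ x.1 < x.2.2 ∧ x.2.2 ≤ 2 ^ (x.1 + 1) ∧
    ∀ d ∈ List.range x.2.2, d < 2 ∨ 0 < x.2.2 % d
  have hP : PrimrecPred P := by
    have hm : Primrec (fun x : ℕ × Unit × ℕ => x.2.2) := Primrec.snd.comp Primrec.snd
    refine PrimrecPred.and ?_ (PrimrecPred.and ?_ ?_)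
    · exact Primrec.nat_lt.comp (primrec_two_pow.comp Primrec.fst) hm
    · exact Primrec.nat_le.comp hm (primrec_two_pow.comp (Primrec.succ.comp Primrec.fst))
    · have h1 : PrimrecRel (fun (d m : ℕ) => d < 2 ∨ 0 < m % d) :=
        PrimrecPred.or (Primrec.nat_lt.comp Primrec.fst (Primrec.const 2))
          (Primrec.nat_lt.comp (Primrec.const 0) (Primrec.nat_mod.comp Primrec.snd Primrec.fst))
      exact PrimrecRel.comp (f := fun x : ℕ × Unit × ℕ => List.range x.2.2) (g := fun x => x.2.2)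
        h1.forall_mem_list (Primrec.list_range.comp hm) hm
  obtain ⟨c1, h1⟩ := K_search P hP
  obtain ⟨c2, h2⟩ := K_map edges primrec_edges.to_comp
  refine ⟨c1 + c2, fun n => ?_⟩
  obtain ⟨p0, hp0, a1, a2⟩ := Nat.exists_prime_lt_and_le_two_mul (2 ^ n) (by positivity)
  obtain ⟨p, ⟨b1, b2, b3⟩, hk⟩ := h1 n () ⟨p0, a1, by simp only [pow_succ]; omega, by
    intro d hd
    rw [List.mem_range] at hd
    by_contra hcon
    push Not at hcon
    have h3 : d ∣ p0 := Nat.dvd_of_mod_eq_zero (by simpa using hcon.2)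
    rcases (Nat.dvd_prime hp0).1 h3 with h | h
    · omega
    · simp only at hd; omega⟩
  simp only at b1 b2 b3
  have h2n : 1 ≤ 2 ^ n := Nat.one_le_two_pow
  refine ⟨p, ?_, b1, b2, ?_⟩
  · rw [Nat.prime_def_lt']
    refine ⟨by omega, fun d hd1 hd2 hdiv => ?_⟩
    rcases b3 d (List.mem_range.2 hd2) with h | h
    · omega
    · rw [Nat.mod_eq_zero_of_dvd hdiv] at h; omega
  · have := h2 p
    simp only [encode_nat] at hk
    omega

/-- Simple planes, in terms of the reference complexity. -/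
theorem simple_plane (U : List Bool →. List Bool) (enc : List (List Bool × List Bool) → List Bool)
    (hU : OptPlain U) (henc : Computable enc) :
    ∃ c : ℕ, ∀ n : ℕ, 2 ≤ n → ∃ (F : Type) (_ : Field F) (_ : Fintype F)
      (cl : Set (F × F) → List Bool) (cp : F × F → List Bool) (G : List (List Bool × List Bool)),
      (∀ k : ℝ, (c : ℝ) ≤ k → SimplePlane U enc k n F cl cp) ∧
      (∀ x y, (x, y) ∈ G ↔ IsEdge cl cp x y) ∧ K G () ≤ 2 * Nat.size n + c ∧
      2 ^ (3 * n) ≤ G.toFinset.card ∧ G.toFinset.card ≤ 2 ^ (3 * n + 4) := by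
  obtain ⟨c1, h1⟩ := J4305.plain_K U hU
  obtain ⟨c2, h2⟩ := simple_prime
  obtain ⟨c3, h3⟩ := K_map enc henc
  refine ⟨c1 + c2 + c3 + 4, fun n hn => ?_⟩
  obtain ⟨p, hp, a1, a2, a3⟩ := h2 n
  haveI : Fact p.Prime := ⟨hp⟩
  obtain ⟨cl, cp, b1, b2, b3⟩ := prime_plane p
  have t1 := one_le_logb n hn
  have t2 := size_le_logb n hn
  refine ⟨ZMod p, inferInstance, inferInstance, cl, cp, edges p, fun k hk => ⟨?_, b1, b2,
    edges p, b3, ?_⟩, b3, by omega, ?_, ?_⟩
  · rw [ZMod.card]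
    have p0 : (0 : ℝ) < p := by exact_mod_cast hp.pos
    have e1 : (n : ℝ) ≤ Real.logb 2 p := by
      rw [Real.le_logb_iff_rpow_le (by norm_num) p0, Real.rpow_natCast]
      exact_mod_cast a1.le
    have e2 : Real.logb 2 p ≤ ((n + 1 : ℕ) : ℝ) := by
      rw [Real.logb_le_iff_le_rpow (by norm_num) p0, Real.rpow_natCast]
      exact_mod_cast a2
    push_cast at e2 hk
    have e3 : (1 : ℝ) ≤ k := by
      have : (0 : ℝ) ≤ (c1 : ℝ) + c2 + c3 := by positivity
      linarith
    have e4 : (1 : ℝ) ≤ k * Real.logb 2 n := one_le_mul_of_one_le_of_one_le e3 t1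
    rw [abs_le]
    constructor <;> linarith
  · have e1 := (h1 (enc (edges p))).1
    have e2 := h3 (edges p)
    have e3 : CU U (enc (edges p)) ≤ 2 * Nat.size n + (c1 + c2 + c3) := by omega
    have e4 : (CU U (enc (edges p)) : ℝ) ≤ 2 * Nat.size n + (c1 + c2 + c3) := by exact_mod_cast e3
    have e5 : ((c1 : ℝ) + c2 + c3) ≤ (c1 + c2 + c3) * Real.logb 2 n :=
      le_mul_of_one_le_right (by positivity) t1
    have e6 : ((c1 : ℝ) + c2 + c3 + 4) * Real.logb 2 n ≤ k * Real.logb 2 n := by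
      push_cast at hk
      gcongr
    linarith
  · refine le_trans ?_ (card_edges_ge cl cp b1 b2 _ b3)
    rw [ZMod.card, mul_comm, pow_mul]
    exact Nat.pow_le_pow_left a1.le 3
  · refine le_trans (card_edges cl cp _ b3) ?_
    rw [ZMod.card]
    calc 2 * p ^ 3 ≤ 2 * (2 ^ (n + 1)) ^ 3 := by gcongr
      _ = 2 ^ (3 * n + 4) := by rw [← pow_mul]; ring

theorem exists_random_edge (G : List (List Bool × List Bool)) (m : ℕ)
    (h : 2 ^ m ≤ G.toFinset.card) : ∃ z ∈ G, m ≤ K z () := by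
  by_contra hcon
  push Not at hcon
  have := card_lt () m G.toFinset (fun a ha => hcon a (List.mem_toFinset.1 ha))
  omega

theorem nonvacuous (U : List Bool →. List Bool) (pr : List Bool → List Bool → List Bool)
    (enc : List (List Bool × List Bool) → List Bool) (hU : OptPlain U) (hpr : PairCode pr)
    (henc : Computable enc) :
    ∃ k : ℝ, ∀ n : ℕ, 2 ≤ n → ∃ (F : Type) (_ : Field F) (_ : Fintype F)
      (cl : Set (F × F) → List Bool) (cp : F × F → List Bool),
      SimplePlane U enc k n F cl cp ∧ ∃ x y, RandomEdge U pr k n cl cp x y := by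
  obtain ⟨c, hc⟩ := simple_plane U enc hU henc
  obtain ⟨c1, h1⟩ := J4305.plain_K U hU
  obtain ⟨c3, h3⟩ := J4305.pair_K pr hpr
  refine ⟨(c + c1 + c3 : ℕ), fun n hn => ?_⟩
  obtain ⟨F, i1, i2, cl, cp, G, a1, a2, a3, a4, a5⟩ := hc n hn
  obtain ⟨⟨x, y⟩, hz, hk⟩ := exists_random_edge G _ a4
  refine ⟨F, i1, i2, cl, cp, a1 _ (by exact_mod_cast (by omega)), x, y, (a2 x y).1 hz, ?_⟩
  have e1 := (h1 (pr x y)).2
  have e2 := (h3 x y).1.2
  have e3 : 3 * n ≤ CU U (pr x y) + (c + c1 + c3) := by omega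
  have e4 : (3 * n : ℝ) ≤ CU U (pr x y) + ((c + c1 + c3 : ℕ) : ℝ) := by exact_mod_cast e3
  have e5 : ((c + c1 + c3 : ℕ) : ℝ) ≤ ((c + c1 + c3 : ℕ) : ℝ) * Real.logb 2 n :=
    le_mul_of_one_le_right (by positivity) (one_le_logb n hn)
  linarith

theorem exists_enc : ∃ enc : List (List Bool × List Bool) → List Bool,
    Computable enc ∧ Function.Injective enc := ⟨str, primrec_str.to_comp, str_inj⟩

end Pool.Agent.H56Z.EP
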