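import Mathlib
import Pool.Agent.H56Z.EP.Fam

set_option autoImplicit false

namespace Pool.Agent.H56Z.EP

open Encodable
open Pool.Agent.Helper760.Kolm Pool.Agent.Helper760.EP

/-- the length of a shortest program is free information -/
theorem K_leak : ∃ c : ℕ, ∀ (G : List (List Bool × List Bool)) (n : ℕ) (x y q : List Bool),
    G[K q () / (2 * n)]? = some (x, y) → K (x, y, q) G ≤ K q () + 2 * Nat.size n + c := by
  let φ : ℕ × List Bool × List (List Bool × List Bool) →. List Bool × List Bool × List Bool :=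
    fun z => (M z.2.1 (encode ())).bind fun m =>
      Part.ofOption ((decode (α := List Bool) m).bind fun q =>
        (z.2.2[z.2.1.length / (2 * z.1)]?).map fun w => (w.1, w.2, q))
  have hφ : Partrec φ := by
    refine Partrec.bind (partrec_M.comp (Computable.fst.comp Computable.snd)
      (Computable.const _)) ?_
    refine Computable.ofOption (Primrec.to_comp ?_)
    refine Primrec.option_bind (Primrec.decode.comp Primrec.snd) ?_
    refine Primrec.option_map ?_ ?_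
    · refine Primrec.list_getElem?.comp
        (Primrec.snd.comp (Primrec.snd.comp (Primrec.fst.comp Primrec.fst))) ?_
      exact Primrec.nat_div.comp (Primrec.list_length.comp
        (Primrec.fst.comp (Primrec.snd.comp (Primrec.fst.comp Primrec.fst))))
        (Primrec.nat_mul.comp (Primrec.const 2) (Primrec.fst.comp (Primrec.fst.comp Primrec.fst)))
    · exact (Primrec.pair (Primrec.fst.comp Primrec.snd) (Primrec.pair
        (Primrec.snd.comp Primrec.snd) (Primrec.snd.comp Primrec.fst))).to₂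
  obtain ⟨c, hc⟩ := K_param φ hφ
  refine ⟨c, fun G n x y q h => ?_⟩
  obtain ⟨p, hp, hl⟩ := K_spec q ()
  have := hc n p G (x, y, q) (by
    simp only [φ, Part.mem_bind_iff]
    refine ⟨encode q, hp, ?_⟩
    simp [hl, h])
  simp only [encode_nat] at this
  omega

theorem exists_random_triple (G : List (List Bool × List Bool)) (m N : ℕ)
    (h : 2 ^ m ≤ G.toFinset.card) :
    ∃ x y q : List Bool, (x, y) ∈ G ∧ q.length = N ∧ m + N ≤ K (x, y, q) () := by
  by_contra hcon
  push Not at hcon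
  have hinj : Function.Injective
      (fun z : (List Bool × List Bool) × List Bool => (z.1.1, z.1.2, z.2)) := by
    rintro ⟨⟨a, b⟩, c⟩ ⟨⟨a', b'⟩, c'⟩ h
    simp only [Prod.mk.injEq] at h
    rw [h.1, h.2.1, h.2.2]
  have h1 := card_lt () (m + N) ((G.toFinset ×ˢ (allLen N).toFinset).image
    (fun z => (z.1.1, z.1.2, z.2))) (by
      intro a ha
      obtain ⟨z, hz, rfl⟩ := Finset.mem_image.1 ha
      obtain ⟨h1, h2⟩ := Finset.mem_product.1 hz
      exact hcon _ _ _ (List.mem_toFinset.1 h1) ((mem_allLen _ _).1 (List.mem_toFinset.1 h2)))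
  rw [Finset.card_image_of_injective _ hinj, Finset.card_product,
    List.toFinset_card_of_nodup (nodup_allLen N), length_allLen, pow_add] at h1
  have := Nat.mul_le_mul_right (2 ^ N) h
  omega

theorem exists_large (D : ℝ) : ∃ n : ℕ, 2 ≤ n ∧ D * Real.logb 2 n < n := by
  obtain ⟨r, hr⟩ := exists_nat_ge (2 * D)
  have h1 : r + 1 < 2 ^ (r + 1) := Nat.lt_two_pow_self
  refine ⟨2 ^ (2 * (r + 1)), ?_, ?_⟩
  · calc 2 = 2 ^ 1 := rfl
      _ ≤ _ := Nat.pow_le_pow_right (by norm_num) (by omega)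
  · have h2 : Real.logb 2 ((2 ^ (2 * (r + 1)) : ℕ) : ℝ) = (2 * (r + 1) : ℕ) := by
      push_cast
      rw [Real.logb_pow, Real.logb_self_eq_one (by norm_num)]
      push_cast; ring
    rw [h2]
    have h3 : ((r : ℝ) + 1) < 2 ^ (r + 1) := by exact_mod_cast h1
    have h4 : ((2 ^ (2 * (r + 1)) : ℕ) : ℝ) = 2 ^ (r + 1) * 2 ^ (r + 1) := by
      push_cast; rw [← pow_add]; congr 1; ring
    rw [h4]
    push_cast
    have h5 : (0 : ℝ) ≤ r := Nat.cast_nonneg r
    have h6 : ((r : ℝ) + 1) * (r + 1) < 2 ^ (r + 1) * 2 ^ (r + 1) :=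
      mul_lt_mul'' h3 h3 (by positivity) (by positivity)
    nlinarith

theorem le_of_abs {a b : ℕ} {δ : ℝ} {e : ℕ} (h : |(((a : ℤ) : ℝ)) - ((b : ℤ) : ℝ)| ≤ δ)
    (he : δ ≤ e) : a ≤ b + e ∧ b ≤ a + e := by
  push_cast at h
  rw [abs_le] at h
  constructor
  · have : (a : ℝ) ≤ b + e := by linarith [h.2]
    exact_mod_cast this
  · have : (b : ℝ) ≤ a + e := by linarith [h.1]
    exact_mod_cast this

theorem long_q (U : List Bool →. List Bool) (pr : List Bool → List Bool → List Bool)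
    (enc : List (List Bool × List Bool) → List Bool) (hU : OptPlain U) (hpr : PairCode pr)
    (henc : Computable enc) :
    ∃ k : ℝ, ∀ d : ℝ, ∃ n : ℕ, 2 ≤ n ∧ ∃ (F : Type) (_ : Field F) (_ : Fintype F)
      (cl : Set (F × F) → List Bool) (cp : F × F → List Bool),
      SimplePlane U enc k n F cl cp ∧ ∃ x y x' y' q : List Bool,
        RandomEdge U pr k n cl cp x y ∧ RandomEdge U pr k n cl cp x' y' ∧
        ∀ q' : List Bool, ∃ i : Fin 7,
          d * Real.logb 2 n < |(prof U pr x' y' q' i : ℝ) - (prof U pr x y q i : ℝ)| := by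
  obtain ⟨c, hc⟩ := simple_plane U enc hU henc
  obtain ⟨c1, h1⟩ := J4305.plain_K U hU
  obtain ⟨c3, h3⟩ := J4305.pair_K pr hpr
  obtain ⟨c4, h4⟩ := K_leak
  obtain ⟨c5, h5⟩ := K_memS
  obtain ⟨c6, h6⟩ := K_chain0 (α := List (List Bool × List Bool)) (β := List Bool × List Bool)
  obtain ⟨c7, h7⟩ := K_chain0 (α := List (List Bool × List Bool))
    (β := List Bool × List Bool × List Bool)
  obtain ⟨c8, h8⟩ := K_build (fun (d : List Bool) (b : List Bool × List Bool) => (b.1, b.2, d))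
    (Computable.pair (Computable.fst.comp Computable.snd)
      (Computable.pair (Computable.snd.comp Computable.snd) Computable.fst)).to₂ id Computable.id
  obtain ⟨c9, h9⟩ := K_len' (β := List Bool × List Bool)
  obtain ⟨c10, h10⟩ := K_len' (β := Unit)
  obtain ⟨c11, h11⟩ := K_forget (β := List Bool × List Bool) (id : List Bool → _) Computable.id
  obtain ⟨c0, d0, d1, d3, d4, d5, d6, d7, d8, d9, d10, d11⟩ : ∃ c0, c ≤ c0 ∧ c1 ≤ c0 ∧ c3 ≤ c0 ∧
      c4 ≤ c0 ∧ c5 ≤ c0 ∧ c6 ≤ c0 ∧ c7 ≤ c0 ∧ c8 ≤ c0 ∧ c9 ≤ c0 ∧ c10 ≤ c0 ∧ c11 ≤ c0 := by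
    refine ⟨c + c1 + c3 + c4 + c5 + c6 + c7 + c8 + c9 + c10 + c11, ?_, ?_, ?_, ?_, ?_, ?_, ?_, ?_,
      ?_, ?_, ?_⟩ <;> omega
  obtain ⟨z, hz0⟩ : ∃ z, z = Nat.size (20 + 5 * c0) := ⟨_, rfl⟩
  obtain ⟨B0, hB⟩ : ∃ B0, B0 = 20 * c0 + 2 * z + 24 := ⟨_, rfl⟩
  refine ⟨((B0 + 16 : ℕ) : ℝ), fun d => ?_⟩
  obtain ⟨n, hn, hD⟩ := exists_large (|d| + 1 + (B0 + 16))
  obtain ⟨F, i1, i2, cl, cp, G, a1, a2, a3, a4, a5⟩ := hc n hn
  have t1 := one_le_logb n hn
  have t2 := size_le_logb n hn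
  set t := Real.logb 2 n with ht
  obtain ⟨⟨x', y'⟩, hz', hk'⟩ := exists_random_edge G _ a4
  obtain ⟨j, hj, hjz⟩ := List.getElem_of_mem hz'
  obtain ⟨x, y, q, hz, hq, hk⟩ := exists_random_triple G (3 * n) (j * (2 * n) + n) a4
  have sn := size_le_self n
  have sG := size_le_self (K G ())
  have z0 := Nat.zero_le c0
  have z1 := Nat.zero_le z
  have z2 := Nat.zero_le (Nat.size n)
  have kxy : K (x, y) () ≤ 3 * n + 6 * Nat.size n + 5 * c0 + 4 := by
    have b1 := h5 G (x, y) _ hz a5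
    have b2 := h6 G (x, y)
    linarith
  have sxy : Nat.size (K (x, y) ()) ≤ z + Nat.size n := by
    rw [hz0]
    refine le_trans (size_mono ?_) (size_mul_le _ _)
    have e1 : c0 ≤ c0 * n := Nat.le_mul_of_pos_right _ (by omega)
    have e2 : (20 + 5 * c0) * n = 20 * n + 5 * (c0 * n) := by ring
    linarith
  have b3 := h8 q (x, y)
  simp only [id] at b3
  have b4 := h9 q (x, y)
  have b5 := h10 q ()
  have b6 := h11 q (x, y)
  simp only [id] at b6
  rw [hq] at b4 b5
  have hBt : ∀ a b : ℕ, a ≤ b + 8 * Nat.size n + B0 →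
      (a : ℝ) ≤ b + ((B0 + 16 : ℕ) : ℝ) * t := by
    intro a b h
    have e1 : (a : ℝ) ≤ b + 8 * Nat.size n + B0 := by exact_mod_cast h
    have e2 : (B0 : ℝ) ≤ B0 * t := le_mul_of_one_le_right (by positivity) t1
    push_cast
    linarith
  have hrand : ∀ x y, (x, y) ∈ G → 3 * n ≤ K (x, y) () + 2 * Nat.size n + 2 * z + 2 * c0 →
      RandomEdge U pr ((B0 + 16 : ℕ) : ℝ) n cl cp x y := by
    intro x y hz h
    refine ⟨(a2 x y).1 hz, ?_⟩
    have e1 := (h1 (pr x y)).2
    have e2 := (h3 x y).1.2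
    have e3 := hBt (3 * n) (CU U (pr x y)) (by linarith)
    rw [Nat.cast_mul] at e3
    push_cast at e3 ⊢
    linarith
  refine ⟨n, hn, F, i1, i2, cl, cp, a1 _ (by exact_mod_cast (by linarith)), x, y, x', y', q,
    hrand x y hz (by linarith), hrand x' y' hz' (by linarith), fun q' => ?_⟩
  by_contra hcon
  push Not at hcon
  obtain ⟨δ, hδ1, hδ2⟩ : ∃ δ : ℕ, d * t ≤ δ ∧ (δ : ℝ) ≤ |d| * t + 1 :=
    ⟨⌈|d| * t⌉₊, le_trans (by gcongr; exact le_abs_self d) (Nat.le_ceil _),
      (Nat.ceil_lt_add_one (by positivity)).le⟩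
  obtain ⟨p1, p2⟩ := le_of_abs (a := CU U q') (b := CU U q) (hcon 2) hδ1
  obtain ⟨-, p4⟩ := le_of_abs (a := CU U (pr x' (pr y' q'))) (b := CU U (pr x (pr y q)))
    (hcon 6) hδ1
  have hsmall : δ + (8 * Nat.size n + B0) < n := by
    have e3 := hBt (8 * Nat.size n + B0) 0 (by linarith)
    have e6 : ((δ + (8 * Nat.size n + B0) : ℕ) : ℝ) < n := by
      rw [Nat.cast_add]
      have e7 : (|d| + 1 + (B0 + 16)) * t = |d| * t + t + ((B0 + 16 : ℕ) : ℝ) * t := by
        push_cast; ring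
      rw [Nat.cast_zero] at e3
      linarith
    exact_mod_cast e6
  have u1 := (h1 q).1
  have u2 := (h1 q).2
  have u3 := (h1 q').1
  have u4 := (h1 q').2
  have hdiv : K q' () / (2 * n) = j := by
    refine Nat.div_eq_of_lt_le ?_ ?_
    · linarith
    · have : (j + 1) * (2 * n) = j * (2 * n) + 2 * n := by ring
      linarith
  have b7 := h4 G n x' y' q' (by rw [hdiv, List.getElem?_eq_getElem hj, hjz])
  have b8 := h7 G (x', y', q')
  have u5 := (h1 (pr x' (pr y' q'))).1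
  have u6 := (h1 (pr x (pr y q))).2
  have u7 := ((h3 x' y').2.2 q').1
  have u8 := ((h3 x y).2.2 q).2
  linarith

end Pool.Agent.H56Z.EP
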